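import Pool.Agent.TH702.EI.Defs

/-!
# Basic facts about protocols
-/

namespace Pool.Agent.TH702.EI

namespace Prot

variable {X Y O : Type}

theorem sum_leaf (o : O) (f : Leaf (leaf o : Prot X Y O) → ℝ) : ∑ l, f l = f () :=
  Fintype.sum_unique (ι := Unit) f

theorem sum_alice (p : X → unitInterval) (s t : Prot X Y O) (f : Leaf (alice p s t) → ℝ) :
    ∑ l, f l = ∑ l : Leaf s, f (Sum.inl l) + ∑ l : Leaf t, f (Sum.inr l) :=
  Fintype.sum_sum_type f

theorem sum_bob (p : Y → unitInterval) (s t : Prot X Y O) (f : Leaf (bob p s t) → ℝ) :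
    ∑ l, f l = ∑ l : Leaf s, f (Sum.inl l) + ∑ l : Leaf t, f (Sum.inr l) :=
  Fintype.sum_sum_type f

theorem sum_coin (p : unitInterval) (s t : Prot X Y O) (f : Leaf (coin p s t) → ℝ) :
    ∑ l, f l = ∑ l : Leaf s, f (Sum.inl l) + ∑ l : Leaf t, f (Sum.inr l) :=
  Fintype.sum_sum_type f

/-- Alice's factor in the probability of a transcript. -/
noncomputable def prA : (π : Prot X Y O) → X → Leaf π → ℝ
  | leaf _, _, _ => 1
  | alice p s _, x, Sum.inl l => (1 - (p x : ℝ)) * prA s x l
  | alice p _ t, x, Sum.inr l => (p x : ℝ) * prA t x l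
  | bob _ s _, x, Sum.inl l => prA s x l
  | bob _ _ t, x, Sum.inr l => prA t x l
  | coin p s _, x, Sum.inl l => (1 - (p : ℝ)) * prA s x l
  | coin p _ t, x, Sum.inr l => (p : ℝ) * prA t x l

/-- Bob's factor in the probability of a transcript. -/
noncomputable def prB : (π : Prot X Y O) → Y → Leaf π → ℝ
  | leaf _, _, _ => 1
  | alice _ s _, y, Sum.inl l => prB s y l
  | alice _ _ t, y, Sum.inr l => prB t y l
  | bob p s _, y, Sum.inl l => (1 - (p y : ℝ)) * prB s y l
  | bob p _ t, y, Sum.inr l => (p y : ℝ) * prB t y l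
  | coin _ s _, y, Sum.inl l => prB s y l
  | coin _ _ t, y, Sum.inr l => prB t y l

theorem pr_eq : ∀ (π : Prot X Y O) (x : X) (y : Y) (l : Leaf π),
    pr π x y l = prA π x l * prB π y l
  | leaf _, _, _, _ => by simp [pr, prA, prB]
  | alice p s _, x, y, Sum.inl l => by
      simp only [pr, prA, prB]; rw [pr_eq s x y l]; ring
  | alice p _ t, x, y, Sum.inr l => by
      simp only [pr, prA, prB]; rw [pr_eq t x y l]; ring
  | bob p s _, x, y, Sum.inl l => by
      simp only [pr, prA, prB]; rw [pr_eq s x y l]; ring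
  | bob p _ t, x, y, Sum.inr l => by
      simp only [pr, prA, prB]; rw [pr_eq t x y l]; ring
  | coin p s _, x, y, Sum.inl l => by
      simp only [pr, prA, prB]; rw [pr_eq s x y l]; ring
  | coin p _ t, x, y, Sum.inr l => by
      simp only [pr, prA, prB]; rw [pr_eq t x y l]; ring

theorem prA_nonneg : ∀ (π : Prot X Y O) (x : X) (l : Leaf π), 0 ≤ prA π x l
  | leaf _, _, _ => by simp [prA]
  | alice p s _, x, Sum.inl l => by
      simp only [prA]; exact mul_nonneg (unitInterval.one_minus_nonneg _) (prA_nonneg s x l)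
  | alice p _ t, x, Sum.inr l => by
      simp only [prA]; exact mul_nonneg (unitInterval.nonneg _) (prA_nonneg t x l)
  | bob p s _, x, Sum.inl l => by simp only [prA]; exact prA_nonneg s x l
  | bob p _ t, x, Sum.inr l => by simp only [prA]; exact prA_nonneg t x l
  | coin p s _, x, Sum.inl l => by
      simp only [prA]; exact mul_nonneg (unitInterval.one_minus_nonneg _) (prA_nonneg s x l)
  | coin p _ t, x, Sum.inr l => by
      simp only [prA]; exact mul_nonneg (unitInterval.nonneg _) (prA_nonneg t x l)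

theorem prB_nonneg : ∀ (π : Prot X Y O) (y : Y) (l : Leaf π), 0 ≤ prB π y l
  | leaf _, _, _ => by simp [prB]
  | bob p s _, x, Sum.inl l => by
      simp only [prB]; exact mul_nonneg (unitInterval.one_minus_nonneg _) (prB_nonneg s x l)
  | bob p _ t, x, Sum.inr l => by
      simp only [prB]; exact mul_nonneg (unitInterval.nonneg _) (prB_nonneg t x l)
  | alice p s _, x, Sum.inl l => by simp only [prB]; exact prB_nonneg s x l
  | alice p _ t, x, Sum.inr l => by simp only [prB]; exact prB_nonneg t x l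
  | coin p s _, x, Sum.inl l => by simp only [prB]; exact prB_nonneg s x l
  | coin p _ t, x, Sum.inr l => by simp only [prB]; exact prB_nonneg t x l

theorem pr_nonneg (π : Prot X Y O) (x : X) (y : Y) (l : Leaf π) : 0 ≤ pr π x y l := by
  rw [pr_eq]; exact mul_nonneg (prA_nonneg π x l) (prB_nonneg π y l)

theorem sum_pr : ∀ (π : Prot X Y O) (x : X) (y : Y), ∑ l, pr π x y l = 1
  | leaf _, _, _ => by rw [sum_leaf]; rfl
  | alice p s t, x, y => by
      rw [sum_alice]; simp only [pr]
      rw [← Finset.mul_sum, ← Finset.mul_sum, sum_pr s, sum_pr t]; ring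
  | bob p s t, x, y => by
      rw [sum_bob]; simp only [pr]
      rw [← Finset.mul_sum, ← Finset.mul_sum, sum_pr s, sum_pr t]; ring
  | coin p s t, x, y => by
      rw [sum_coin]; simp only [pr]
      rw [← Finset.mul_sum, ← Finset.mul_sum, sum_pr s, sum_pr t]; ring

/-- The expected number of bits exchanged on the input `(x, y)`. -/
noncomputable def eb : (π : Prot X Y O) → X → Y → ℝ
  | leaf _, _, _ => 0
  | alice p s t, x, y => 1 + (1 - (p x : ℝ)) * eb s x y + (p x : ℝ) * eb t x y
  | bob p s t, x, y => 1 + (1 - (p y : ℝ)) * eb s x y + (p y : ℝ) * eb t x y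
  | coin p s t, x, y => (1 - (p : ℝ)) * eb s x y + (p : ℝ) * eb t x y

theorem sum_bits_aux {ι : Type*} [Fintype ι] (c : ℝ) (q : ι → ℝ) (b : ι → ℕ)
    (h : ∑ l, q l = 1) :
    ∑ l, c * q l * ((b l + 1 : ℕ) : ℝ) = c * (∑ l, q l * (b l : ℝ)) + c := by
  have h2 : ∑ l, c * q l * ((b l + 1 : ℕ) : ℝ)
      = ∑ l, (c * (q l * (b l : ℝ)) + c * q l) := by
    refine Finset.sum_congr rfl fun l _ => ?_
    push_cast; ring
  rw [h2, Finset.sum_add_distrib, ← Finset.mul_sum, ← Finset.mul_sum, h, mul_one]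

theorem sum_pr_bits : ∀ (π : Prot X Y O) (x : X) (y : Y),
    ∑ l, pr π x y l * (bits π l : ℝ) = eb π x y
  | leaf _, _, _ => by rw [sum_leaf]; simp [pr, bits, eb]
  | alice p s t, x, y => by
      rw [sum_alice]; simp only [pr, bits, eb]
      rw [← sum_pr_bits s, ← sum_pr_bits t,
        sum_bits_aux _ (fun l => s.pr x y l) _ (sum_pr s x y),
        sum_bits_aux _ (fun l => t.pr x y l) _ (sum_pr t x y)]
      ring
  | bob p s t, x, y => by
      rw [sum_bob]; simp only [pr, bits, eb]
      rw [← sum_pr_bits s, ← sum_pr_bits t,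
        sum_bits_aux _ (fun l => s.pr x y l) _ (sum_pr s x y),
        sum_bits_aux _ (fun l => t.pr x y l) _ (sum_pr t x y)]
      ring
  | coin p s t, x, y => by
      rw [sum_coin]; simp only [pr, bits, eb]
      rw [← sum_pr_bits s, ← sum_pr_bits t, Finset.mul_sum, Finset.mul_sum]
      congr 1 <;> exact Finset.sum_congr rfl fun l _ => by ring

theorem eb_nonneg : ∀ (π : Prot X Y O) (x : X) (y : Y), 0 ≤ eb π x y := by
  intro π x y
  rw [← sum_pr_bits]
  exact Finset.sum_nonneg fun l _ => mul_nonneg (pr_nonneg π x y l) (Nat.cast_nonneg _)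

theorem expBits_eq [Fintype X] [Fintype Y] (μ : X × Y → ℝ) (π : Prot X Y O) :
    expBits μ π = ∑ z : X × Y, μ z * eb π z.1 z.2 := by
  unfold expBits
  refine Finset.sum_congr rfl fun z _ => ?_
  rw [← sum_pr_bits, Finset.mul_sum]
  exact Finset.sum_congr rfl fun l _ => by ring

theorem expBits_nonneg [Fintype X] [Fintype Y] {μ : X × Y → ℝ} (hμ : ∀ z, 0 ≤ μ z)
    (π : Prot X Y O) : 0 ≤ expBits μ π := by
  rw [expBits_eq]
  exact Finset.sum_nonneg fun z _ => mul_nonneg (hμ z) (eb_nonneg _ _ _)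

/-- On the input `(x, y)` the protocol surely outputs `o`. -/
def Sure (π : Prot X Y O) (x : X) (y : Y) (o : O) : Prop :=
  ∀ l, 0 < pr π x y l → out π l = o

theorem sure_leaf (o : O) (x : X) (y : Y) : Sure (leaf o : Prot X Y O) x y o :=
  fun _ _ => rfl

theorem pos_of_mul_pos_of_nonneg' {a b : ℝ} (h : 0 < a * b) (ha : 0 ≤ a) : 0 < b := by
  by_contra hb
  exact absurd h (not_lt.2 (mul_nonpos_of_nonneg_of_nonpos ha (not_lt.1 hb)))

theorem sure_alice {p : X → unitInterval} {s t : Prot X Y O} {x : X} {y : Y} {o : O} :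
    Sure (alice p s t) x y o ↔ (((p x : ℝ) < 1 → Sure s x y o) ∧ (0 < (p x : ℝ) → Sure t x y o)) := by
  constructor
  · intro h
    constructor
    · intro hp l hl
      exact h (Sum.inl l) (by simp only [pr]; exact mul_pos (by linarith) hl)
    · intro hp l hl
      exact h (Sum.inr l) (by simp only [pr]; exact mul_pos hp hl)
  · rintro ⟨h1, h2⟩ l hl
    rcases l with l | l
    · simp only [pr] at hl
      have h0 : 0 ≤ 1 - (p x : ℝ) := unitInterval.one_minus_nonneg _
      have h3 : 1 - (p x : ℝ) ≠ 0 := fun h => by rw [h, zero_mul] at hl; exact lt_irrefl _ hl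
      have h4 : 0 < 1 - (p x : ℝ) := lt_of_le_of_ne h0 (Ne.symm h3)
      exact h1 (by linarith) l ((pos_of_mul_pos_of_nonneg' hl h0))
    · simp only [pr] at hl
      have h0 : 0 ≤ (p x : ℝ) := unitInterval.nonneg _
      have h3 : (p x : ℝ) ≠ 0 := fun h => by rw [h, zero_mul] at hl; exact lt_irrefl _ hl
      exact h2 (lt_of_le_of_ne h0 (Ne.symm h3)) l ((pos_of_mul_pos_of_nonneg' hl h0))

end Prot

end Pool.Agent.TH702.EI
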