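import Pool.Agent.TH702.EI.Expect

/-!
# The block protocol
-/

namespace Pool.Agent.TH702.EI

variable {X Y A T : Type} (idx : X → A) (key : X → T) (tab : Y → A → Bool) (lck : Y → T)

/-- The keys differ or the table is `true` at the index. -/
def Fun [DecidableEq T] (x : X) (y : Y) : Bool := decide (key x ≠ lck y) || tab y (idx x)

open Classical in
/-- Indicator that the keys differ. -/
noncomputable def om (s : X × Y) : ℝ := if key s.1 = lck s.2 then 0 else 1

/-- Indicator that the table is `false` at the index. -/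
noncomputable def vv (s : X × Y) : ℝ := if tab s.2 (idx s.1) = true then 0 else 1

theorem om_idem (s : X × Y) : om key lck s * om key lck s = om key lck s := by
  classical
  unfold om
  by_cases h : key s.1 = lck s.2
  · simp [h]
  · simp [h]

open Classical in
theorem sum_om (g : ℕ) (x : Fin g → X) (y : Fin g → Y) : ∑ c, om key lck (x c, y c) =
    ((Finset.univ.filter fun c => key (x c) ≠ lck (y c)).card : ℝ) := by
  unfold om
  rw [Finset.card_filter]
  push_cast
  refine Finset.sum_congr rfl fun c _ => ?_
  by_cases h : key (x c) = lck (y c)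
  · simp [h]
  · simp [h]

theorem sum_vv (g : ℕ) (x : Fin g → X) (y : Fin g → Y) : ∑ c, vv idx tab (x c, y c) =
    ((Finset.univ.filter fun c => ¬ tab (y c) (idx (x c)) = true).card : ℝ) := by
  unfold vv
  rw [Finset.card_filter]
  push_cast
  refine Finset.sum_congr rfl fun c _ => ?_
  by_cases h : tab (y c) (idx (x c)) = true
  · simp [h]
  · simp [h]

open Classical in
theorem card_ne_one [AddCommGroup T] {g : ℕ} (x : Fin g → X) (y : Fin g → Y)
    (h : ∑ c, key (x c) = ∑ c, lck (y c)) :
    (Finset.univ.filter fun c => key (x c) ≠ lck (y c)).card ≠ 1 := by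
  intro h1
  rw [Finset.card_eq_one] at h1
  obtain ⟨c0, hc0⟩ := h1
  have h2 : ∑ c, (key (x c) - lck (y c)) = 0 := by rw [Finset.sum_sub_distrib, h, sub_self]
  have h3 : ∀ c, c ≠ c0 → key (x c) = lck (y c) := by
    intro c hc
    by_contra hne
    have : c ∈ Finset.univ.filter fun c => key (x c) ≠ lck (y c) := by simp [hne]
    rw [hc0, Finset.mem_singleton] at this
    exact hc this
  rw [Finset.sum_eq_single c0 (fun c _ hc => by rw [h3 c hc, sub_self])
    (fun h => absurd (Finset.mem_univ _) h)] at h2
  have h4 : c0 ∈ Finset.univ.filter fun c => key (x c) ≠ lck (y c) := by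
    rw [hc0]; exact Finset.mem_singleton_self _
  rw [Finset.mem_filter] at h4
  exact h4.2 (sub_eq_zero.1 h2)

open Classical in
theorem card_pos_of_ne [AddCommGroup T] {g : ℕ} (x : Fin g → X) (y : Fin g → Y)
    (h : ∑ c, key (x c) ≠ ∑ c, lck (y c)) :
    1 ≤ (Finset.univ.filter fun c => key (x c) ≠ lck (y c)).card := by
  rw [Nat.one_le_iff_ne_zero]
  intro h0
  rw [Finset.card_eq_zero, Finset.filter_eq_empty_iff] at h0
  refine h (Finset.sum_congr rfl fun c _ => ?_)
  exact not_not.1 (h0 (Finset.mem_univ c))

open Classical in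
theorem om_facts [AddCommGroup T] {g : ℕ} (x : Fin g → X) (y : Fin g → Y) :
    ∃ W : ℕ, ∑ c, om key lck (x c, y c) = W ∧ (∑ c, key (x c) = ∑ c, lck (y c) → W ≠ 1) ∧
      (∑ c, key (x c) ≠ ∑ c, lck (y c) → 1 ≤ W) ∧
      ∀ u : Fin g → Bool, (∀ c, u c = true ↔ key (x c) = lck (y c)) →
        Fintype.card {c : Fin g // u c = true} + W = g := by
  refine ⟨_, sum_om key lck g x y, card_ne_one key lck x y, card_pos_of_ne key lck x y, ?_⟩
  intro u hu
  rw [Fintype.card_subtype]
  have h7 : (Finset.univ.filter fun c => u c = true) =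
      Finset.univ.filter fun c => key (x c) = lck (y c) := by
    ext c
    simp [hu]
  rw [h7, Finset.card_filter_add_card_filter_not, Finset.card_univ, Fintype.card_fin]

theorem vv_facts {g : ℕ} (x : Fin g → X) (y : Fin g → Y) :
    ∃ V : ℕ, ∑ c, vv idx tab (x c, y c) = V ∧
      ((¬ ∀ c, tab (y c) (idx (x c)) = true) → 1 ≤ V) := by
  refine ⟨_, sum_vv idx tab g x y, fun h => ?_⟩
  rw [Nat.one_le_iff_ne_zero]
  intro h0
  rw [Finset.card_eq_zero, Finset.filter_eq_empty_iff] at h0
  exact h fun c => not_not.1 (h0 (Finset.mem_univ c))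

/-- The block protocol for `g` copies. -/
theorem block [Fintype A] [Nonempty A] [Fintype T] [DecidableEq T] [AddCommGroup T]
    (k m g : ℕ) (hA : Fintype.card A ≤ 2 ^ k) (hT : Fintype.card T ≤ 2 ^ m) :
    Solves (fun _ _ => True) (powF (Fun idx key tab lck) g) (fun x y =>
      (m : ℝ) + 2 + k * (g - ∑ c, om key lck (x c, y c)) +
        k * ((∑ c, om key lck (x c, y c)) * ((∑ c, om key lck (x c, y c)) - 1)) +
        ((∑ c, om key lck (x c, y c)) + ∑ c, vv idx tab (x c, y c)) * (g * (m + 2))) := by
  classical
  refine (Solves.bob (M := T) m hT (fun y : Fin g → Y => ∑ c, lck (y c)) (D := fun _ _ => True)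
    (F := fun _ y => ∑ c, lck (y c)) (fun _ _ _ => rfl)).bind' fun σ => ?_
  refine (Solves.alice (M := Bool) 1 (by simp)
    (fun x : Fin g → X => decide (∑ c, key (x c) = σ))
    (F := fun x _ => decide (∑ c, key (x c) = σ)) (fun _ _ _ => rfl)).bind' fun b => ?_
  cases b with
  | true =>
    refine (Solves.alice (M := Fin g → A) (k * g)
      (by rw [Fintype.card_fun, Fintype.card_fin, pow_mul]; exact Nat.pow_le_pow_left hA g)
      (fun (x : Fin g → X) c => idx (x c)) (F := fun x _ c => idx (x c))
      (fun _ _ _ => rfl)).bind' fun ι => ?_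
    refine (Solves.bob (M := Bool) 1 (by simp)
      (fun y : Fin g → Y => decide (∀ c, tab (y c) (ι c) = true))
      (F := fun _ y => decide (∀ c, tab (y c) (ι c) = true)) (fun _ _ _ => rfl)).bind' fun b => ?_
    cases b with
    | true =>
      refine Solves.const (fun _ => true) fun x y h => ?_
      obtain ⟨⟨⟨⟨-, h1⟩, h2⟩, h3⟩, h4⟩ := h
      have h2' : ∑ c, key (x c) = ∑ c, lck (y c) := by rw [h1]; exact of_decide_eq_true h2
      have h4' := of_decide_eq_true h4
      constructor
      · funext c
        show (decide (key (x c) ≠ lck (y c)) || tab (y c) (idx (x c))) = true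
        have h5 : idx (x c) = ι c := congrFun h3 c
        rw [h5, h4' c, Bool.or_true]
      · obtain ⟨W, hWdef, hW1, -, -⟩ := om_facts key lck x y
        obtain ⟨V, hVdef, -⟩ := vv_facts idx tab x y
        rw [hWdef, hVdef]
        have hW := hW1 h2'
        have hW2 : 0 ≤ (W : ℝ) * ((W : ℝ) - 2) := by
          rcases Nat.lt_or_ge W 2 with h6 | h6
          · have : W = 0 := by omega
            rw [this]; simp
          · have : (2 : ℝ) ≤ W := by exact_mod_cast h6
            exact mul_nonneg (by linarith) (by linarith)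
        have hk : 0 ≤ (k : ℝ) * ((W : ℝ) * ((W : ℝ) - 2)) := mul_nonneg (Nat.cast_nonneg k) hW2
        have hr : 0 ≤ ((W : ℝ) + V) * (g * (m + 2)) := by positivity
        push_cast
        nlinarith
    | false =>
      refine (Solves.bob (M := Fin g → Bool) g (by simp)
        (fun (y : Fin g → Y) c => tab (y c) (ι c)) (F := fun _ y c => tab (y c) (ι c))
        (fun _ _ _ => rfl)).bind' fun v => ?_
      refine (Solves.bob (M := Fin g → T) (m * g)
        (by rw [Fintype.card_fun, Fintype.card_fin, pow_mul]; exact Nat.pow_le_pow_left hT g)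
        (fun (y : Fin g → Y) c => lck (y c)) (F := fun _ y c => lck (y c))
        (fun _ _ _ => rfl)).bind' fun t => ?_
      refine (Solves.alice (M := Fin g → Bool) g (by simp)
        (fun (x : Fin g → X) c => decide (key (x c) ≠ t c))
        (F := fun x _ c => decide (key (x c) ≠ t c))
        (fun _ _ _ => rfl)).bind' fun u => ?_
      refine Solves.const (fun c => u c || v c) fun x y h => ?_
      obtain ⟨⟨⟨⟨⟨⟨⟨-, h1⟩, h2⟩, h3⟩, h4⟩, h5⟩, h6⟩, h7⟩ := h
      have h2' : ∑ c, key (x c) = ∑ c, lck (y c) := by rw [h1]; exact of_decide_eq_true h2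
      have h4' := of_decide_eq_false h4
      constructor
      · funext c
        show (decide (key (x c) ≠ lck (y c)) || tab (y c) (idx (x c))) = (u c || v c)
        rw [← congrFun h7 c, ← congrFun h5 c, ← congrFun h6 c, ← congrFun h3 c]
      · obtain ⟨W, hWdef, hW1, -, -⟩ := om_facts key lck x y
        obtain ⟨V, hVdef, hV1⟩ := vv_facts idx tab x y
        rw [hWdef, hVdef]
        have hW := hW1 h2'
        have hV : 1 ≤ V := hV1 fun h => h4' fun c => by rw [← congrFun h3 c]; exact h c
        have hW2 : 0 ≤ (W : ℝ) * ((W : ℝ) - 2) := by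
          rcases Nat.lt_or_ge W 2 with h6 | h6
          · have : W = 0 := by omega
            rw [this]; simp
          · have : (2 : ℝ) ≤ W := by exact_mod_cast h6
            exact mul_nonneg (by linarith) (by linarith)
        have hk : 0 ≤ (k : ℝ) * ((W : ℝ) * ((W : ℝ) - 2)) := mul_nonneg (Nat.cast_nonneg k) hW2
        have hV' : (1 : ℝ) ≤ V := by exact_mod_cast hV
        have hr : (g : ℝ) * (m + 2) ≤ ((W : ℝ) + V) * (g * (m + 2)) :=
          le_mul_of_one_le_left (by positivity) (by
            have : (0 : ℝ) ≤ W := Nat.cast_nonneg _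
            linarith)
        push_cast
        nlinarith
  | false =>
    refine (Solves.bob (M := Fin g → T) (m * g)
      (by rw [Fintype.card_fun, Fintype.card_fin, pow_mul]; exact Nat.pow_le_pow_left hT g)
      (fun (y : Fin g → Y) c => lck (y c)) (F := fun _ y c => lck (y c))
      (fun _ _ _ => rfl)).bind' fun t => ?_
    refine (Solves.alice (M := Fin g → Bool) g (by simp)
      (fun (x : Fin g → X) c => decide (key (x c) = t c))
      (F := fun x _ c => decide (key (x c) = t c))
      (fun _ _ _ => rfl)).bind' fun u => ?_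
    refine (Solves.alice (M := {c : Fin g // u c = true} → A)
      (k * Fintype.card {c : Fin g // u c = true})
      (by rw [Fintype.card_fun, pow_mul]; exact Nat.pow_le_pow_left hA _)
      (fun (x : Fin g → X) c => idx (x c.1)) (F := fun x _ c => idx (x c.1))
      (fun _ _ _ => rfl)).bind' fun ι => ?_
    refine (Solves.bob (M := {c : Fin g // u c = true} → Bool)
      (Fintype.card {c : Fin g // u c = true}) (by simp)
      (fun (y : Fin g → Y) c => tab (y c.1) (ι c)) (F := fun _ y c => tab (y c.1) (ι c))
      (fun _ _ _ => rfl)).bind' fun v => ?_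
    refine Solves.const (fun c => if h : u c = true then v ⟨c, h⟩ else true) fun x y h => ?_
    obtain ⟨⟨⟨⟨⟨⟨-, h1⟩, h2⟩, h3⟩, h4⟩, h5⟩, h6⟩ := h
    have h2' : ∑ c, key (x c) ≠ ∑ c, lck (y c) := by rw [h1]; exact of_decide_eq_false h2
    have h4' : ∀ c, u c = decide (key (x c) = lck (y c)) := by
      intro c; rw [← congrFun h4 c, ← congrFun h3 c]
    constructor
    · funext c
      show (decide (key (x c) ≠ lck (y c)) || tab (y c) (idx (x c))) =
        if h : u c = true then v ⟨c, h⟩ else true
      by_cases hu : u c = true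
      · rw [dif_pos hu]
        have hk : key (x c) = lck (y c) := by
          rw [h4'] at hu; exact of_decide_eq_true hu
        rw [← congrFun h6 ⟨c, hu⟩, ← congrFun h5 ⟨c, hu⟩]
        simp [hk]
      · rw [dif_neg hu]
        have hk : key (x c) ≠ lck (y c) := by
          intro h; exact hu (by rw [h4']; exact decide_eq_true h)
        simp [hk]
    · obtain ⟨W, hWdef, -, hW2, hW3⟩ := om_facts key lck x y
      obtain ⟨V, hVdef, -⟩ := vv_facts idx tab x y
      rw [hWdef, hVdef]
      have hW := hW2 h2'
      have hcard := hW3 u (fun c => by rw [h4', decide_eq_true_iff])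
      set U : ℕ := Fintype.card {c : Fin g // u c = true}
      have hU : (U : ℝ) = g - W := by
        have : ((U + W : ℕ) : ℝ) = g := by rw [hcard]
        push_cast at this
        linarith
      have hW1 : (1 : ℝ) ≤ W := by exact_mod_cast hW
      have hk : 0 ≤ (k : ℝ) * ((W : ℝ) * ((W : ℝ) - 1)) :=
        mul_nonneg (Nat.cast_nonneg k) (mul_nonneg (by linarith) (by linarith))
      have hr : (g : ℝ) * (m + 2) ≤ ((W : ℝ) + V) * (g * (m + 2)) :=
        le_mul_of_one_le_left (by positivity) (by
          have : (0 : ℝ) ≤ V := Nat.cast_nonneg _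
          linarith)
      push_cast
      rw [hU]
      nlinarith

end Pool.Agent.TH702.EI
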