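import Pool.Agent.TH702.EI.Basic

/-!
# Combining protocols
-/

namespace Pool.Agent.TH702.EI

namespace Prot

variable {X Y O X' Y' O' : Type}

/-- Run `π` on the images of the inputs. -/
def comap (α : X' → X) (β : Y' → Y) : Prot X Y O → Prot X' Y' O
  | leaf o => leaf o
  | alice p s t => alice (fun x => p (α x)) (comap α β s) (comap α β t)
  | bob p s t => bob (fun y => p (β y)) (comap α β s) (comap α β t)
  | coin p s t => coin p (comap α β s) (comap α β t)

theorem eb_comap (α : X' → X) (β : Y' → Y) : ∀ (π : Prot X Y O) (x : X') (y : Y'),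
    eb (comap α β π) x y = eb π (α x) (β y)
  | leaf _, _, _ => rfl
  | alice p s t, x, y => by simp only [comap, eb]; rw [eb_comap α β s, eb_comap α β t]
  | bob p s t, x, y => by simp only [comap, eb]; rw [eb_comap α β s, eb_comap α β t]
  | coin p s t, x, y => by simp only [comap, eb]; rw [eb_comap α β s, eb_comap α β t]

theorem sure_bob {p : Y → unitInterval} {s t : Prot X Y O} {x : X} {y : Y} {o : O} :
    Sure (bob p s t) x y o ↔ (((p y : ℝ) < 1 → Sure s x y o) ∧ (0 < (p y : ℝ) → Sure t x y o)) := by
  constructor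
  · intro h
    constructor
    · intro hp l hl
      exact h (Sum.inl l) (by simp only [pr]; exact mul_pos (by linarith) hl)
    · intro hp l hl
      exact h (Sum.inr l) (by simp only [pr]; exact mul_pos hp hl)
  · rintro ⟨h1, h2⟩ l hl
    rcases l with l | l
    · simp only [pr] at hl
      have h0 : 0 ≤ 1 - (p y : ℝ) := unitInterval.one_minus_nonneg _
      have h3 : 1 - (p y : ℝ) ≠ 0 := fun h => by rw [h, zero_mul] at hl; exact lt_irrefl _ hl
      have h4 : 0 < 1 - (p y : ℝ) := lt_of_le_of_ne h0 (Ne.symm h3)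
      exact h1 (by linarith) l (pos_of_mul_pos_of_nonneg' hl h0)
    · simp only [pr] at hl
      have h0 : 0 ≤ (p y : ℝ) := unitInterval.nonneg _
      have h3 : (p y : ℝ) ≠ 0 := fun h => by rw [h, zero_mul] at hl; exact lt_irrefl _ hl
      exact h2 (lt_of_le_of_ne h0 (Ne.symm h3)) l (pos_of_mul_pos_of_nonneg' hl h0)

theorem sure_coin {p : unitInterval} {s t : Prot X Y O} {x : X} {y : Y} {o : O} :
    Sure (coin p s t) x y o ↔ (((p : ℝ) < 1 → Sure s x y o) ∧ (0 < (p : ℝ) → Sure t x y o)) := by
  constructor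
  · intro h
    constructor
    · intro hp l hl
      exact h (Sum.inl l) (by simp only [pr]; exact mul_pos (by linarith) hl)
    · intro hp l hl
      exact h (Sum.inr l) (by simp only [pr]; exact mul_pos hp hl)
  · rintro ⟨h1, h2⟩ l hl
    rcases l with l | l
    · simp only [pr] at hl
      have h0 : 0 ≤ 1 - (p : ℝ) := unitInterval.one_minus_nonneg _
      have h3 : 1 - (p : ℝ) ≠ 0 := fun h => by rw [h, zero_mul] at hl; exact lt_irrefl _ hl
      have h4 : 0 < 1 - (p : ℝ) := lt_of_le_of_ne h0 (Ne.symm h3)
      exact h1 (by linarith) l (pos_of_mul_pos_of_nonneg' hl h0)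
    · simp only [pr] at hl
      have h0 : 0 ≤ (p : ℝ) := unitInterval.nonneg _
      have h3 : (p : ℝ) ≠ 0 := fun h => by rw [h, zero_mul] at hl; exact lt_irrefl _ hl
      exact h2 (lt_of_le_of_ne h0 (Ne.symm h3)) l (pos_of_mul_pos_of_nonneg' hl h0)

theorem sure_comap (α : X' → X) (β : Y' → Y) : ∀ (π : Prot X Y O) (x : X') (y : Y') (o : O),
    Sure π (α x) (β y) o → Sure (comap α β π) x y o
  | leaf _, _, _, _, h => fun _ _ => h () (by simp [pr])
  | alice p s t, x, y, o, h => by
      rw [sure_alice] at h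
      exact sure_alice.2 ⟨fun hp => sure_comap α β s x y o (h.1 hp),
        fun hp => sure_comap α β t x y o (h.2 hp)⟩
  | bob p s t, x, y, o, h => by
      rw [sure_bob] at h
      exact sure_bob.2 ⟨fun hp => sure_comap α β s x y o (h.1 hp),
        fun hp => sure_comap α β t x y o (h.2 hp)⟩
  | coin p s t, x, y, o, h => by
      rw [sure_coin] at h
      exact sure_coin.2 ⟨fun hp => sure_comap α β s x y o (h.1 hp),
        fun hp => sure_comap α β t x y o (h.2 hp)⟩

/-- Run `π`, then continue with the protocol `k o`, where `o` is the output of `π`. -/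
def bind : Prot X Y O → (O → Prot X Y O') → Prot X Y O'
  | leaf o, k => k o
  | alice p s t, k => alice p (bind s k) (bind t k)
  | bob p s t, k => bob p (bind s k) (bind t k)
  | coin p s t, k => coin p (bind s k) (bind t k)

theorem mul_aux {c a b d : ℝ} (h0 : 0 ≤ c) (h : 0 < c → a = b + d) : c * a = c * b + c * d := by
  rcases h0.eq_or_lt with h1 | h1
  · rw [← h1]; ring
  · rw [h h1]; ring

theorem eb_bind (k : O → Prot X Y O') : ∀ (π : Prot X Y O) (x : X) (y : Y) (o : O),
    Sure π x y o → eb (bind π k) x y = eb π x y + eb (k o) x y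
  | leaf o', x, y, o, h => by
      have : o' = o := h () (by simp [pr])
      simp only [bind, eb, this, zero_add]
  | alice p s t, x, y, o, h => by
      rw [sure_alice] at h
      simp only [bind, eb]
      rw [mul_aux (unitInterval.one_minus_nonneg (p x))
          (fun hp => eb_bind k s x y o (h.1 (by linarith))),
        mul_aux (unitInterval.nonneg (p x)) (fun hp => eb_bind k t x y o (h.2 hp))]
      ring
  | bob p s t, x, y, o, h => by
      rw [sure_bob] at h
      simp only [bind, eb]
      rw [mul_aux (unitInterval.one_minus_nonneg (p y))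
          (fun hp => eb_bind k s x y o (h.1 (by linarith))),
        mul_aux (unitInterval.nonneg (p y)) (fun hp => eb_bind k t x y o (h.2 hp))]
      ring
  | coin p s t, x, y, o, h => by
      rw [sure_coin] at h
      simp only [bind, eb]
      rw [mul_aux (unitInterval.one_minus_nonneg p)
          (fun hp => eb_bind k s x y o (h.1 (by linarith))),
        mul_aux (unitInterval.nonneg p) (fun hp => eb_bind k t x y o (h.2 hp))]
      ring

theorem sure_bind (k : O → Prot X Y O') {o' : O'} : ∀ (π : Prot X Y O) (x : X) (y : Y) (o : O),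
    Sure π x y o → Sure (k o) x y o' → Sure (bind π k) x y o'
  | leaf o'', x, y, o, h, h' => by
      have : o'' = o := h () (by simp [pr])
      simp only [bind, this]; exact h'
  | alice p s t, x, y, o, h, h' => by
      rw [sure_alice] at h
      exact sure_alice.2 ⟨fun hp => sure_bind k s x y o (h.1 hp) h',
        fun hp => sure_bind k t x y o (h.2 hp) h'⟩
  | bob p s t, x, y, o, h, h' => by
      rw [sure_bob] at h
      exact sure_bob.2 ⟨fun hp => sure_bind k s x y o (h.1 hp) h',
        fun hp => sure_bind k t x y o (h.2 hp) h'⟩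
  | coin p s t, x, y, o, h, h' => by
      rw [sure_coin] at h
      exact sure_coin.2 ⟨fun hp => sure_bind k s x y o (h.1 hp) h',
        fun hp => sure_bind k t x y o (h.2 hp) h'⟩

end Prot

open Prot

variable {X Y O O' : Type}

/-- Some protocol surely outputs `F x y` on all inputs `(x, y)` in the domain `D`, and exchanges at
most `c x y` bits on average on these inputs. -/
def Solves (D : X → Y → Prop) (F : X → Y → O) (c : X → Y → ℝ) : Prop :=
  ∃ π : Prot X Y O, ∀ x y, D x y → Sure π x y (F x y) ∧ eb π x y ≤ c x y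

theorem Solves.const {D : X → Y → Prop} {F : X → Y → O} {c : X → Y → ℝ} (o : O)
    (h : ∀ x y, D x y → F x y = o ∧ 0 ≤ c x y) : Solves D F c := by
  refine ⟨Prot.leaf o, fun x y hD => ?_⟩
  obtain ⟨h1, h2⟩ := h x y hD
  rw [h1]
  exact ⟨sure_leaf o x y, h2⟩

theorem Solves.mono {D D' : X → Y → Prop} {F : X → Y → O} {c c' : X → Y → ℝ}
    (h : Solves D F c) (h' : ∀ x y, D' x y → D x y ∧ c x y ≤ c' x y) : Solves D' F c' := by
  obtain ⟨π, hπ⟩ := h
  refine ⟨π, fun x y hD => ?_⟩
  obtain ⟨h1, h2⟩ := h' x y hD
  exact ⟨(hπ x y h1).1, (hπ x y h1).2.trans h2⟩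

theorem Solves.bind {D : X → Y → Prop} {F : X → Y → O} {G : X → Y → O'} {c d : X → Y → ℝ}
    (h1 : Solves D F c) (h2 : ∀ o, Solves (fun x y => D x y ∧ F x y = o) G d) :
    Solves D G (fun x y => c x y + d x y) := by
  obtain ⟨π, hπ⟩ := h1
  choose k hk using h2
  refine ⟨Prot.bind π k, fun x y hD => ?_⟩
  obtain ⟨h3, h4⟩ := hπ x y hD
  obtain ⟨h5, h6⟩ := hk (F x y) x y ⟨hD, rfl⟩
  refine ⟨sure_bind k π x y _ h3 h5, ?_⟩
  rw [eb_bind k π x y _ h3]
  exact add_le_add h4 h6

/-- `Solves.bind` with a bound on the total cost. -/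
theorem Solves.bind' {D : X → Y → Prop} {F : X → Y → O} {G : X → Y → O'} {c e : X → Y → ℝ}
    (h1 : Solves D F c)
    (h2 : ∀ o, Solves (fun x y => D x y ∧ F x y = o) G (fun x y => e x y - c x y)) :
    Solves D G e :=
  (h1.bind h2).mono fun x y hD => ⟨hD, by simp⟩

theorem Solves.alice1 (f : X → Bool) :
    Solves (Y := Y) (fun _ _ => True) (fun x _ => f x) (fun _ _ => 1) := by
  refine ⟨Prot.alice (fun x => if f x then 1 else 0) (Prot.leaf false) (Prot.leaf true),
    fun x y _ => ?_⟩
  constructor
  · rw [sure_alice]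
    constructor
    · intro hp
      have : f x = false := by
        by_contra h
        rw [Bool.not_eq_false] at h
        simp [h] at hp
      simp only [this]; exact sure_leaf _ _ _
    · intro hp
      have : f x = true := by
        by_contra h
        rw [Bool.not_eq_true] at h
        simp [h] at hp
      simp only [this]; exact sure_leaf _ _ _
  · simp [eb]

theorem Solves.bob1 (f : Y → Bool) :
    Solves (X := X) (fun _ _ => True) (fun _ y => f y) (fun _ _ => 1) := by
  refine ⟨Prot.bob (fun y => if f y then 1 else 0) (Prot.leaf false) (Prot.leaf true),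
    fun x y _ => ?_⟩
  constructor
  · rw [sure_bob]
    constructor
    · intro hp
      have : f y = false := by
        by_contra h
        rw [Bool.not_eq_false] at h
        simp [h] at hp
      simp only [this]; exact sure_leaf _ _ _
    · intro hp
      have : f y = true := by
        by_contra h
        rw [Bool.not_eq_true] at h
        simp [h] at hp
      simp only [this]; exact sure_leaf _ _ _
  · simp [eb]

theorem Solves.aliceBits : ∀ (n : ℕ) (f : X → Fin n → Bool),
    Solves (Y := Y) (fun _ _ => True) (fun x _ => f x) (fun _ _ => (n : ℝ))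
  | 0, f => Solves.const (fun i => Fin.elim0 i) fun x y _ => ⟨by ext i; exact Fin.elim0 i, by simp⟩
  | n + 1, f => by
      refine ((Solves.alice1 (fun x => f x 0)).bind (G := fun x (_ : Y) => f x)
        (d := fun _ _ => (n : ℝ)) fun b => ?_).mono fun x y _ => ⟨trivial, ?_⟩
      · refine (((Solves.aliceBits n (fun x => Fin.tail (f x))).mono
          (D' := fun x _ => True ∧ f x 0 = b) (c' := fun _ _ => (n : ℝ)) ?_).bind
          (d := fun _ _ => (0 : ℝ)) fun v => ?_).mono ?_
        · intro x y _; exact ⟨trivial, le_rfl⟩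
        · refine Solves.const (Fin.cons b v) fun x y h => ⟨?_, le_rfl⟩
          rw [← h.1.2, ← h.2]
          exact (Fin.cons_self_tail (f x)).symm
        · intro x y h; exact ⟨h, by simp⟩
      · push_cast; rw [add_comm]

theorem Solves.bobBits : ∀ (n : ℕ) (f : Y → Fin n → Bool),
    Solves (X := X) (fun _ _ => True) (fun _ y => f y) (fun _ _ => (n : ℝ))
  | 0, f => Solves.const (fun i => Fin.elim0 i) fun x y _ => ⟨by ext i; exact Fin.elim0 i, by simp⟩
  | n + 1, f => by
      refine ((Solves.bob1 (fun x => f x 0)).bind (G := fun (_ : X) y => f y)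
        (d := fun _ _ => (n : ℝ)) fun b => ?_).mono fun x y _ => ⟨trivial, ?_⟩
      · refine (((Solves.bobBits n (fun x => Fin.tail (f x))).mono
          (D' := fun _ y => True ∧ f y 0 = b) (c' := fun _ _ => (n : ℝ)) ?_).bind
          (d := fun _ _ => (0 : ℝ)) fun v => ?_).mono ?_
        · intro x y _; exact ⟨trivial, le_rfl⟩
        · refine Solves.const (Fin.cons b v) fun x y h => ⟨?_, le_rfl⟩
          rw [← h.1.2, ← h.2]
          exact (Fin.cons_self_tail (f y)).symm
        · intro x y h; exact ⟨h, by simp⟩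
      · push_cast; rw [add_comm]

/-- Alice can communicate an element of a set of size at most `2 ^ n` with `n` bits. -/
theorem Solves.alice {M : Type} [Fintype M] [Nonempty M] (n : ℕ) (hM : Fintype.card M ≤ 2 ^ n)
    {D : X → Y → Prop} {F : X → Y → M} (f : X → M) (hF : ∀ x y, D x y → F x y = f x) :
    Solves D F (fun _ _ => (n : ℝ)) := by
  classical
  obtain ⟨e⟩ := Function.Embedding.nonempty_of_card_le (α := M) (β := Fin n → Bool)
    (by simpa using hM)
  refine (((Solves.aliceBits (Y := Y) n (fun x => e (f x))).mono (D' := D)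
    (c' := fun _ _ => (n : ℝ)) fun _ _ _ => ⟨trivial, le_rfl⟩).bind
    (d := fun _ _ => (0 : ℝ)) (G := F) fun v => ?_).mono fun x y h => ⟨h, by simp⟩
  by_cases hv : ∃ w, e w = v
  · obtain ⟨w, hw⟩ := hv
    refine Solves.const w fun x y h => ⟨?_, le_rfl⟩
    rw [hF x y h.1]
    exact e.injective (h.2.trans hw.symm)
  · exact Solves.const (Classical.arbitrary M) fun x y h => absurd ⟨f x, h.2⟩ hv

/-- Bob can communicate an element of a set of size at most `2 ^ n` with `n` bits. -/
theorem Solves.bob {M : Type} [Fintype M] [Nonempty M] (n : ℕ) (hM : Fintype.card M ≤ 2 ^ n)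
    {D : X → Y → Prop} {F : X → Y → M} (f : Y → M) (hF : ∀ x y, D x y → F x y = f y) :
    Solves D F (fun _ _ => (n : ℝ)) := by
  classical
  obtain ⟨e⟩ := Function.Embedding.nonempty_of_card_le (α := M) (β := Fin n → Bool)
    (by simpa using hM)
  refine (((Solves.bobBits (X := X) n (fun y => e (f y))).mono (D' := D)
    (c' := fun _ _ => (n : ℝ)) fun _ _ _ => ⟨trivial, le_rfl⟩).bind
    (d := fun _ _ => (0 : ℝ)) (G := F) fun v => ?_).mono fun x y h => ⟨h, by simp⟩
  by_cases hv : ∃ w, e w = v
  · obtain ⟨w, hw⟩ := hv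
    refine Solves.const w fun x y h => ⟨?_, le_rfl⟩
    rw [hF x y h.1]
    exact e.injective (h.2.trans hw.symm)
  · exact Solves.const (Classical.arbitrary M) fun x y h => absurd ⟨f y, h.2⟩ hv

/-- A bound for the average communication of the best protocol. -/
theorem Solves.avgCC_le [Fintype X] [Fintype Y] {F : X → Y → O} {c : X → Y → ℝ}
    (h : Solves (fun _ _ => True) F c) {μ : X × Y → ℝ} (hμ : ∀ z, 0 ≤ μ z) :
    avgCC F μ ≤ ∑ z : X × Y, μ z * c z.1 z.2 := by
  obtain ⟨π, hπ⟩ := h
  have hb : BddBelow {r : ℝ | ∃ π : Prot X Y O, π.ZeroError F ∧ r = π.expBits μ} := by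
    refine ⟨0, ?_⟩
    rintro r ⟨π', -, rfl⟩
    exact expBits_nonneg hμ π'
  have h1 : avgCC F μ ≤ π.expBits μ :=
    csInf_le hb ⟨π, fun x y l hl => (hπ x y trivial).1 l hl, rfl⟩
  refine h1.trans ?_
  rw [expBits_eq]
  exact Finset.sum_le_sum fun z _ => mul_le_mul_of_nonneg_left (hπ z.1 z.2 trivial).2 (hμ z)

end Pool.Agent.TH702.EI
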