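import Pool.Agent.TH702.EI.Gibbs

/-!
# The two input distributions and the two counting inequalities
-/

namespace Pool.Agent.TH702.EI.Low

open Real

variable {A T R : Type} [Fintype A] [Fintype T] [Fintype R] [DecidableEq A]

set_option linter.unusedSectionVars false

/-- Same key, and the index of Alice points to the value `true` in the table of Bob. -/
def Hit (x : A × T × R) (y : (A → Bool) × T) : Prop := x.2.1 = y.2 ∧ y.1 x.1 = true

/-- The indices `i` such that `(i, z, r)` is in the support of `α` for some `r`. -/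
noncomputable def supp (α : A × T × R → ℝ) (z : T) : Finset A := by
  classical exact Finset.univ.filter (fun i => ∃ r, α (i, z, r) ≠ 0)

theorem mem_supp (α : A × T × R → ℝ) (z : T) (i : A) : i ∈ supp α z ↔ ∃ r, α (i, z, r) ≠ 0 := by
  classical
  unfold supp
  simp

theorem sum_triple (G : A × T × R → ℝ) : ∑ x, G x = ∑ z, ∑ i, ∑ r, G (i, z, r) := by
  rw [Fintype.sum_prod_type]
  simp only [Fintype.sum_prod_type]
  rw [Finset.sum_comm]

theorem cnt (α : A × T × R → ℝ) (z : T) :
    ∑ i, ∑ r, ind (α (i, z, r) ≠ 0) ≤ (supp α z).card * Fintype.card R := by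
  classical
  have h : ∀ i, ∑ r, ind (α (i, z, r) ≠ 0) ≤ if i ∈ supp α z then (Fintype.card R : ℝ) else 0 := by
    intro i
    by_cases hi : i ∈ supp α z
    · rw [if_pos hi]
      calc ∑ r, ind (α (i, z, r) ≠ 0) ≤ ∑ r : R, (1 : ℝ) :=
            Finset.sum_le_sum fun r _ => ind_le_one _
        _ = Fintype.card R := by simp
    · rw [if_neg hi]
      rw [mem_supp] at hi
      push Not at hi
      refine (Finset.sum_eq_zero fun r _ => ?_).le
      exact ind_neg (not_not.2 (hi r))
  calc ∑ i, ∑ r, ind (α (i, z, r) ≠ 0)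
      ≤ ∑ i, if i ∈ supp α z then (Fintype.card R : ℝ) else 0 := Finset.sum_le_sum fun i _ => h i
    _ = (supp α z).card * Fintype.card R := by
        rw [Finset.sum_ite_mem, Finset.univ_inter, Finset.sum_const, nsmul_eq_mul]

theorem sum_pair_ind (P : (A → Bool) → ℝ) (z : T) :
    ∑ y : (A → Bool) × T, P y.1 * ind (z = y.2) = ∑ f, P f := by
  classical
  rw [Fintype.sum_prod_type]
  refine Finset.sum_congr rfl fun f _ => ?_
  rw [Finset.sum_eq_single z]
  · simp [ind_pos]
  · intro t _ ht
    simp only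
    rw [ind_neg (Ne.symm ht), mul_zero]
  · intro h; exact absurd (Finset.mem_univ z) h

theorem sum_hit (x : A × T × R) : ∑ y, ind (Hit x y) = 2 ^ (Fintype.card A) / 2 := by
  classical
  have h : ∀ y : (A → Bool) × T, ind (Hit x y) =
      ind (∀ i ∈ ({x.1} : Finset A), y.1 i = true) * ind (x.2.1 = y.2) := by
    intro y
    unfold Hit
    by_cases h1 : x.2.1 = y.2
    · by_cases h2 : y.1 x.1 = true
      · rw [ind_pos ⟨h1, h2⟩, ind_pos h1, ind_pos (by simpa using h2)]; norm_num
      · rw [ind_neg (fun h => h2 h.2), ind_neg (by simpa using h2)]; norm_num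
    · rw [ind_neg (fun h => h1 h.1), ind_neg h1]; norm_num
  simp only [h]
  rw [sum_pair_ind (fun f => ind (∀ i ∈ ({x.1} : Finset A), f i = true)) x.2.1, sum_ind_true]
  simp

/-- First counting inequality. -/
theorem count_one (α : A × T × R → ℝ) (β : (A → Bool) × T → ℝ)
    (hab : ∀ x y, α x ≠ 0 → β y ≠ 0 → x.2.1 = y.2 → y.1 x.1 = true) (φ : T → ℝ)
    (hφ : ∀ z, 0 ≤ φ z) :
    ∑ x, ∑ y, ind (Hit x y) * (ind (α x ≠ 0) * ind (β y ≠ 0)) * φ x.2.1 ≤
      Fintype.card R * ∑ z, φ z * ((supp α z).card / 2 ^ (supp α z).card * 2 ^ Fintype.card A) := by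
  classical
  have h1 : ∀ x : A × T × R, ∑ y, ind (Hit x y) * (ind (α x ≠ 0) * ind (β y ≠ 0)) * φ x.2.1 ≤
      ind (α x ≠ 0) * (φ x.2.1 * (2 ^ Fintype.card A / 2 ^ (supp α x.2.1).card)) := by
    intro x
    by_cases hx : α x ≠ 0
    · rw [ind_pos hx, one_mul, ← sum_ind_true, ← sum_pair_ind _ x.2.1, Finset.mul_sum]
      refine Finset.sum_le_sum fun y _ => ?_
      rw [one_mul, mul_comm (φ x.2.1)]
      refine mul_le_mul_of_nonneg_right ?_ (hφ _)
      by_cases hy : β y ≠ 0
      · by_cases hz : x.2.1 = y.2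
        · rw [ind_pos hy, mul_one, ind_pos hz, mul_one]
          have : ∀ i ∈ supp α x.2.1, y.1 i = true := by
            intro i hi
            rw [mem_supp] at hi
            obtain ⟨r, hr⟩ := hi
            exact hab (i, x.2.1, r) y hr hy hz
          rw [ind_pos this]
          exact ind_le_one _
        · rw [ind_neg (fun h : Hit x y => hz h.1), zero_mul]
          exact mul_nonneg (ind_nonneg _) (ind_nonneg _)
      · rw [ind_neg hy, mul_zero]
        exact mul_nonneg (ind_nonneg _) (ind_nonneg _)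
    · rw [ind_neg hx]
      simp
  calc ∑ x, ∑ y, ind (Hit x y) * (ind (α x ≠ 0) * ind (β y ≠ 0)) * φ x.2.1
      ≤ ∑ x : A × T × R, ind (α x ≠ 0) *
          (φ x.2.1 * (2 ^ Fintype.card A / 2 ^ (supp α x.2.1).card)) :=
        Finset.sum_le_sum fun x _ => h1 x
    _ = ∑ z, (φ z * (2 ^ Fintype.card A / 2 ^ (supp α z).card)) *
          ∑ i, ∑ r, ind (α (i, z, r) ≠ 0) := by
        rw [sum_triple]
        refine Finset.sum_congr rfl fun z _ => ?_
        rw [Finset.mul_sum]
        refine Finset.sum_congr rfl fun i _ => ?_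
        rw [Finset.mul_sum]
        exact Finset.sum_congr rfl fun r _ => by ring
    _ ≤ ∑ z, (φ z * (2 ^ Fintype.card A / 2 ^ (supp α z).card)) *
          ((supp α z).card * Fintype.card R) :=
        Finset.sum_le_sum fun z _ => mul_le_mul_of_nonneg_left (cnt α z)
          (mul_nonneg (hφ z) (by positivity))
    _ = _ := by
        rw [Finset.mul_sum]
        exact Finset.sum_congr rfl fun z _ => by ring

/-- Second counting inequality. -/
theorem count_two (α : A × T × R → ℝ) (s : ℕ) (h : (A → Bool) × T → ℝ) (hh : ∀ y, 0 ≤ h y) :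
    ∑ x, ∑ y, ind (Hit x y) * (ind (α x ≠ 0) * ind ((supp α x.2.1).card ≤ s)) * h y ≤
      Fintype.card R * s * ∑ y, h y := by
  classical
  rw [Finset.sum_comm, Finset.mul_sum]
  refine Finset.sum_le_sum fun y _ => ?_
  rw [← Finset.sum_mul]
  refine mul_le_mul_of_nonneg_right ?_ (hh y)
  rw [sum_triple]
  calc ∑ z, ∑ i, ∑ r, ind (Hit (i, z, r) y) *
          (ind (α (i, z, r) ≠ 0) * ind ((supp α z).card ≤ s))
      ≤ ∑ z, ∑ i, ∑ r, ind (z = y.2) *
          (ind (α (i, z, r) ≠ 0) * ind ((supp α z).card ≤ s)) := by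
        refine Finset.sum_le_sum fun z _ => Finset.sum_le_sum fun i _ =>
          Finset.sum_le_sum fun r _ => ?_
        exact mul_le_mul_of_nonneg_right (ind_mono fun h => h.1)
          (mul_nonneg (ind_nonneg _) (ind_nonneg _))
    _ = ∑ z, (ind (z = y.2) * ind ((supp α z).card ≤ s)) * ∑ i, ∑ r, ind (α (i, z, r) ≠ 0) := by
        refine Finset.sum_congr rfl fun z _ => ?_
        rw [Finset.mul_sum]
        refine Finset.sum_congr rfl fun i _ => ?_
        rw [Finset.mul_sum]
        exact Finset.sum_congr rfl fun r _ => by ring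
    _ ≤ ∑ z, ind (z = y.2) * (Fintype.card R * s) := by
        refine Finset.sum_le_sum fun z _ => ?_
        rw [mul_assoc]
        refine mul_le_mul_of_nonneg_left ?_ (ind_nonneg _)
        by_cases hs : (supp α z).card ≤ s
        · rw [ind_pos hs, one_mul]
          refine (cnt α z).trans ?_
          rw [mul_comm]
          exact mul_le_mul_of_nonneg_left (by exact_mod_cast hs) (Nat.cast_nonneg _)
        · rw [ind_neg hs, zero_mul]; positivity
    _ = Fintype.card R * s := by
        rw [← Finset.sum_mul, Finset.sum_eq_single y.2]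
        · rw [ind_pos rfl, one_mul]
        · intro z _ hz; exact ind_neg hz
        · intro h; exact absurd (Finset.mem_univ _) h

end Pool.Agent.TH702.EI.Low
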