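import Mathlib

/-!
# Two-party protocols, external information and expected communication

Definitions for the question whether the zero-error external information complexity equals the
amortized zero-error expected communication complexity.
-/

namespace Pool.Agent.TH702.EI

/-- A (finite) two-party protocol tree on inputs `x : X` of Alice and `y : Y` of Bob, with outputs
in `O`.

* `leaf o`: the protocol stops with output `o`.
* `alice p s t`: Alice sends one bit. Using her private randomness, she sends the bit `1` with
  probability `p x` and the bit `0` otherwise; the protocol continues with `t` after a `1` and with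
  `s` after a `0`.
* `bob p s t`: the same for Bob, the probability of the bit `1` being `p y`.
* `coin p s t`: a public coin is tossed (nobody communicates); it shows `1` with probability `p`.

Since the tree is explored from the root, the probability `p x` may depend on everything that was
communicated before. -/
inductive Prot (X Y O : Type) : Type
  | leaf (o : O) : Prot X Y O
  | alice (p : X → unitInterval) (s t : Prot X Y O) : Prot X Y O
  | bob (p : Y → unitInterval) (s t : Prot X Y O) : Prot X Y O
  | coin (p : unitInterval) (s t : Prot X Y O) : Prot X Y O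

namespace Prot

variable {X Y O : Type}

/-- The possible transcripts of a protocol (public coins included): the leaves of the tree. -/
def Leaf : Prot X Y O → Type
  | leaf _ => Unit
  | alice _ s t => Leaf s ⊕ Leaf t
  | bob _ s t => Leaf s ⊕ Leaf t
  | coin _ s t => Leaf s ⊕ Leaf t

/-- A protocol has finitely many transcripts. -/
instance instFintypeLeaf : (π : Prot X Y O) → Fintype (Leaf π)
  | leaf _ => inferInstanceAs (Fintype Unit)
  | alice _ s t =>
    @instFintypeSum (Leaf s) (Leaf t) (instFintypeLeaf s) (instFintypeLeaf t)
  | bob _ s t =>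
    @instFintypeSum (Leaf s) (Leaf t) (instFintypeLeaf s) (instFintypeLeaf t)
  | coin _ s t =>
    @instFintypeSum (Leaf s) (Leaf t) (instFintypeLeaf s) (instFintypeLeaf t)

/-- `pr π x y ℓ`: the probability that the transcript is `ℓ` when the inputs are `x` and `y`. -/
noncomputable def pr : (π : Prot X Y O) → X → Y → Leaf π → ℝ
  | leaf _, _, _, _ => 1
  | alice p s _, x, y, Sum.inl l => (1 - (p x : ℝ)) * pr s x y l
  | alice p _ t, x, y, Sum.inr l => (p x : ℝ) * pr t x y l
  | bob p s _, x, y, Sum.inl l => (1 - (p y : ℝ)) * pr s x y l
  | bob p _ t, x, y, Sum.inr l => (p y : ℝ) * pr t x y l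
  | coin p s _, x, y, Sum.inl l => (1 - (p : ℝ)) * pr s x y l
  | coin p _ t, x, y, Sum.inr l => (p : ℝ) * pr t x y l

/-- The output of the protocol at a transcript. -/
def out : (π : Prot X Y O) → Leaf π → O
  | leaf o, _ => o
  | alice _ s _, Sum.inl l => out s l
  | alice _ _ t, Sum.inr l => out t l
  | bob _ s _, Sum.inl l => out s l
  | bob _ _ t, Sum.inr l => out t l
  | coin _ s _, Sum.inl l => out s l
  | coin _ _ t, Sum.inr l => out t l

/-- The number of bits exchanged by Alice and Bob in a transcript (public coins are free). -/
def bits : (π : Prot X Y O) → Leaf π → ℕ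
  | leaf _, _ => 0
  | alice _ s _, Sum.inl l => bits s l + 1
  | alice _ _ t, Sum.inr l => bits t l + 1
  | bob _ s _, Sum.inl l => bits s l + 1
  | bob _ _ t, Sum.inr l => bits t l + 1
  | coin _ s _, Sum.inl l => bits s l
  | coin _ _ t, Sum.inr l => bits t l

/-- `π` computes `F` with zero error: for all inputs and every outcome of the randomness (that is,
for every transcript of positive probability) the output is correct. -/
def ZeroError (π : Prot X Y O) (F : X → Y → O) : Prop :=
  ∀ x y l, 0 < π.pr x y l → π.out l = F x y

/-- The mutual information `I_μ(Π; XY)`, in bits, between the transcript `Π` and the inputs, when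
the inputs have the joint distribution `μ`:
the sum over `x, y, ℓ` of `P(x, y, ℓ) log₂ (P(ℓ | x, y) / P(ℓ))`. -/
noncomputable def extInfo [Fintype X] [Fintype Y] (μ : X × Y → ℝ) (π : Prot X Y O) : ℝ :=
  ∑ z : X × Y, ∑ l : Leaf π,
    μ z * π.pr z.1 z.2 l * Real.logb 2 (π.pr z.1 z.2 l / ∑ w : X × Y, μ w * π.pr w.1 w.2 l)

/-- The expected number of bits exchanged, over inputs with distribution `μ` and the randomness of
the protocol. -/
noncomputable def expBits [Fintype X] [Fintype Y] (μ : X × Y → ℝ) (π : Prot X Y O) : ℝ :=
  ∑ z : X × Y, ∑ l : Leaf π, μ z * π.pr z.1 z.2 l * (π.bits l : ℝ)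

end Prot

open Prot

variable {X Y O : Type}

/-- `IC^ext(F, 0, μ)`: the infimum of `I_μ(Π; XY)` over all zero-error protocols for `F`. -/
noncomputable def ICext [Fintype X] [Fintype Y] (F : X → Y → O) (μ : X × Y → ℝ) : ℝ :=
  sInf {r : ℝ | ∃ π : Prot X Y O, π.ZeroError F ∧ r = π.extInfo μ}

/-- The least expected number of bits exchanged by a zero-error protocol for `F` under `μ`. -/
noncomputable def avgCC [Fintype X] [Fintype Y] (F : X → Y → O) (μ : X × Y → ℝ) : ℝ :=
  sInf {r : ℝ | ∃ π : Prot X Y O, π.ZeroError F ∧ r = π.expBits μ}

/-- The task `F^n`: compute `F` on `n` coordinates. -/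
def powF (F : X → Y → O) (n : ℕ) : (Fin n → X) → (Fin n → Y) → (Fin n → O) :=
  fun x y c => F (x c) (y c)

/-- The product distribution `μ^n` on the inputs of `F^n`. -/
noncomputable def powMu (μ : X × Y → ℝ) (n : ℕ) : (Fin n → X) × (Fin n → Y) → ℝ :=
  fun z => ∏ c, μ (z.1 c, z.2 c)

end Pool.Agent.TH702.EI
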