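import Pool.Agent.TH702.EI.Lower

/-!
# The dichotomy for zero-error channels
-/

namespace Pool.Agent.TH702.EI.Low

open Real

variable {A T R : Type} [Fintype A] [Fintype T] [Fintype R] [DecidableEq A]
  [Nonempty A] [Nonempty T] [Nonempty R]

set_option linter.unusedSectionVars false

variable {Λ : Type} [Fintype Λ] (C : Chan A T R Λ)

/-- Alice's factor is not much smaller than its mean. -/
def Chan.ev (s : ℕ) (x : A × T × R) (l : Λ) : Prop :=
  ¬ (16 * s / (Fintype.card A : ℝ) * C.a x l < C.abar l)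

theorem Chan.step5 (s : ℕ) (hs0 : 0 < s) :
    ∑ z : (A × T × R) × ((A → Bool) × T), ∑ l, mu0 z * (C.a z.1 l * C.b z.2 l) *
      ind ((supp (fun x => C.a x l) z.1.2.1).card ≤ s ∧ ¬ C.ev s z.1 l) ≤ 1 / 8 := by
  have h1 : (0 : ℝ) < Fintype.card A := cardA_pos
  have hs0' : (0 : ℝ) < s := by exact_mod_cast hs0
  set K : ℝ := (Fintype.card A : ℝ) with hK
  rw [Finset.sum_comm]
  have hl : ∀ l, ∑ z : (A × T × R) × ((A → Bool) × T), mu0 z * (C.a z.1 l * C.b z.2 l) *
      ind ((supp (fun x => C.a x l) z.1.2.1).card ≤ s ∧ ¬ C.ev s z.1 l) ≤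
      1 / 8 * (C.abar l * C.bbar l) := by
    intro l
    have n2 := norm_two (fun x => C.a x l) s (fun y => C.b y l) (fun y => C.hb y l)
    calc _ ≤ ∑ z : (A × T × R) × ((A → Bool) × T), (K / (16 * s) * C.abar l) *
          (mu0 z * (ind (C.a z.1 l ≠ 0) * ind ((supp (fun x => C.a x l) z.1.2.1).card ≤ s) *
            C.b z.2 l)) := by
          refine Finset.sum_le_sum fun z _ => ?_
          have hnn : 0 ≤ (K / (16 * s) * C.abar l) *
            (mu0 z * (ind (C.a z.1 l ≠ 0) * ind ((supp (fun x => C.a x l) z.1.2.1).card ≤ s) *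
            C.b z.2 l)) := by
            refine mul_nonneg (mul_nonneg (by positivity) (C.abar_nonneg l))
              (mul_nonneg (mu0_nonneg z) (mul_nonneg (mul_nonneg (ind_nonneg _) (ind_nonneg _))
                (C.hb _ _)))
          by_cases ha : C.a z.1 l ≠ 0
          · by_cases hc : (supp (fun x => C.a x l) z.1.2.1).card ≤ s ∧ ¬ C.ev s z.1 l
            · rw [ind_pos hc, ind_pos ha, ind_pos hc.1, mul_one, one_mul, one_mul]
              have h2 := hc.2
              unfold Chan.ev at h2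
              rw [not_not] at h2
              have h3 : C.a z.1 l ≤ K / (16 * s) * C.abar l := by
                have : K / (16 * s) * (16 * s / K * C.a z.1 l) = C.a z.1 l := by
                  field_simp
                rw [← this]
                exact mul_le_mul_of_nonneg_left h2.le (by positivity)
              have h4 : mu0 z * (C.a z.1 l * C.b z.2 l) =
                  C.a z.1 l * (mu0 z * C.b z.2 l) := by ring
              rw [h4]
              exact mul_le_mul_of_nonneg_right h3 (mul_nonneg (mu0_nonneg z) (C.hb _ _))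
            · rw [ind_neg hc, mul_zero]; exact hnn
          · rw [not_not] at ha
            have : mu0 z * (C.a z.1 l * C.b z.2 l) * ind ((supp (fun x => C.a x l)
                z.1.2.1).card ≤ s ∧ ¬ C.ev s z.1 l) = 0 := by rw [ha]; ring
            rw [this]; exact hnn
      _ ≤ (K / (16 * s) * C.abar l) * (2 * s / K * C.bbar l) := by
          rw [← Finset.mul_sum]
          exact mul_le_mul_of_nonneg_left n2 (mul_nonneg (by positivity) (C.abar_nonneg l))
      _ = 1 / 8 * (C.abar l * C.bbar l) := by field_simp; ring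
  calc _ ≤ ∑ l, 1 / 8 * (C.abar l * C.bbar l) := Finset.sum_le_sum fun l _ => hl l
    _ = 1 / 8 := by rw [← Finset.mul_sum, C.sum_bar, mul_one]

theorem Chan.step6 (s : ℕ) (L : ℝ) (hL : 0 ≤ L) :
    ∑ z : (A × T × R) × ((A → Bool) × T), ∑ l, mu0 z * (C.a z.1 l * C.b z.2 l) *
      ind (C.b z.2 l ≤ L * C.bbar l ∧ C.ev s z.1 l) ≤
    L * ∑ z : (A × T × R) × ((A → Bool) × T), ∑ l, mu1 z * (C.a z.1 l * C.b z.2 l) *
      ind (C.ev s z.1 l) := by
  have h1 : (0 : ℝ) < Fintype.card A := cardA_pos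
  have h2 : (0 : ℝ) < Fintype.card T := cardA_pos
  have h3 : (0 : ℝ) < Fintype.card R := cardA_pos
  rw [Finset.sum_comm, Finset.sum_comm (f := fun (z : (A × T × R) × ((A → Bool) × T)) l =>
    mu1 z * (C.a z.1 l * C.b z.2 l) * ind (C.ev s z.1 l)), Finset.mul_sum]
  refine Finset.sum_le_sum fun l _ => ?_
  have e2 : ∑ z : (A × T × R) × ((A → Bool) × T), mu1 z * (C.a z.1 l * C.b z.2 l) *
      ind (C.ev s z.1 l) = C.bbar l * ((∑ x, C.a x l * ind (C.ev s x l)) /
        (Fintype.card A * Fintype.card T * Fintype.card R)) := by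
    unfold Chan.bbar
    rw [div_mul_div_comm, mul_comm (∑ y, C.b y l), Finset.sum_mul_sum, Fintype.sum_prod_type,
      Finset.sum_div]
    refine Finset.sum_congr rfl fun x _ => ?_
    rw [Finset.sum_div]
    refine Finset.sum_congr rfl fun y _ => ?_
    unfold mu1
    field_simp
  rw [e2]
  calc ∑ z : (A × T × R) × ((A → Bool) × T), mu0 z * (C.a z.1 l * C.b z.2 l) *
      ind (C.b z.2 l ≤ L * C.bbar l ∧ C.ev s z.1 l)
      ≤ ∑ z : (A × T × R) × ((A → Bool) × T), (C.a z.1 l * ind (C.ev s z.1 l) *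
        (L * C.bbar l)) * mu0 z := by
        refine Finset.sum_le_sum fun z _ => ?_
        have hnn : 0 ≤ (C.a z.1 l * ind (C.ev s z.1 l) * (L * C.bbar l)) * mu0 z :=
          mul_nonneg (mul_nonneg (mul_nonneg (C.ha _ _) (ind_nonneg _))
            (mul_nonneg hL (C.bbar_nonneg l))) (mu0_nonneg z)
        by_cases hc : C.b z.2 l ≤ L * C.bbar l ∧ C.ev s z.1 l
        · rw [ind_pos hc, ind_pos hc.2, mul_one, mul_one]
          have h4 : mu0 z * (C.a z.1 l * C.b z.2 l) = (mu0 z * C.a z.1 l) * C.b z.2 l := by ring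
          rw [h4]
          have h5 : C.a z.1 l * (L * C.bbar l) * mu0 z = (mu0 z * C.a z.1 l) * (L * C.bbar l) := by
            ring
          rw [h5]
          exact mul_le_mul_of_nonneg_left hc.1 (mul_nonneg (mu0_nonneg z) (C.ha _ _))
        · rw [ind_neg hc, mul_zero]; exact hnn
    _ = L * (C.bbar l * ((∑ x, C.a x l * ind (C.ev s x l)) /
        (Fintype.card A * Fintype.card T * Fintype.card R))) := by
        rw [Fintype.sum_prod_type]
        simp only [← Finset.mul_sum, sum_mu0_right]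
        rw [← Finset.sum_mul, ← Finset.sum_mul]
        ring

section
variable (μ : (A × T × R) × ((A → Bool) × T) → ℝ) (hμ : ∀ z, 0 < μ z) (hμ1 : ∑ z, μ z = 1)

include hμ hμ1

theorem Chan.step7 (s : ℕ) (hs0 : 0 < s) :
    log (Fintype.card A / (16 * s)) * ∑ z : (A × T × R) × ((A → Bool) × T), ∑ l,
      mu1 z * (C.a z.1 l * C.b z.2 l) * ind (C.ev s z.1 l) - log 2 ≤ C.info μ mu1 := by
  have h1 : (0 : ℝ) < Fintype.card A := cardA_pos
  have h2 : (0 : ℝ) < Fintype.card T := cardA_pos
  have h3 : (0 : ℝ) < Fintype.card R := cardA_pos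
  have hs0' : (0 : ℝ) < s := by exact_mod_cast hs0
  have hratio : ∀ (x : A × T × R) (l : Λ), 0 ≤ C.a x l / C.abar l := fun x l =>
    div_nonneg (C.ha _ _) (C.abar_nonneg l)
  have key := C.gibbs μ hμ hμ1 mu1 mu1_nonneg sum_mu1
    (fun z l => (1 + C.a z.1 l / C.abar l) / 2)
    (fun z l => by have := hratio z.1 l; positivity)
    (fun z l _ => by have := hratio z.1 l; positivity)
    (fun l => by
      have e : ∑ z : (A × T × R) × ((A → Bool) × T), mu1 z * ((1 + C.a z.1 l / C.abar l) / 2) =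
          (1 + C.abar l / C.abar l) / 2 := by
        have e1 : ∀ z : (A × T × R) × ((A → Bool) × T), mu1 z * ((1 + C.a z.1 l / C.abar l) / 2) =
            1 / 2 * mu1 z + 1 / 2 * (mu1 z * C.a z.1 l) / C.abar l := fun z => by ring
        simp only [e1]
        rw [Finset.sum_add_distrib, ← Finset.sum_div, ← Finset.mul_sum, ← Finset.mul_sum, sum_mu1]
        have e3 : ∑ z : (A × T × R) × ((A → Bool) × T), mu1 z * C.a z.1 l = C.abar l := by
          rw [Fintype.sum_prod_type]
          unfold mu1 Chan.abar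
          simp only [Finset.sum_const, Finset.card_univ, nsmul_eq_mul, cardY]
          rw [Finset.sum_div]
          refine Finset.sum_congr rfl fun x _ => ?_
          field_simp
        rw [e3]; ring
      rw [e]
      have : C.abar l / C.abar l ≤ 1 := div_self_le_one _
      linarith)
  refine le_trans ?_ key
  have e : log (Fintype.card A / (16 * s)) * ∑ z : (A × T × R) × ((A → Bool) × T), ∑ l,
      mu1 z * (C.a z.1 l * C.b z.2 l) * ind (C.ev s z.1 l) - log 2 =
      ∑ z : (A × T × R) × ((A → Bool) × T), ∑ l, mu1 z * (C.a z.1 l * C.b z.2 l) *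
        (log (Fintype.card A / (16 * s)) * ind (C.ev s z.1 l) - log 2) := by
    have e1 : ∑ z : (A × T × R) × ((A → Bool) × T), ∑ l, mu1 z * (C.a z.1 l * C.b z.2 l) = 1 := by
      simp only [← Finset.mul_sum, C.hs, mul_one, sum_mu1]
    calc _ = log (Fintype.card A / (16 * s)) * ∑ z : (A × T × R) × ((A → Bool) × T), ∑ l,
          mu1 z * (C.a z.1 l * C.b z.2 l) * ind (C.ev s z.1 l) - log 2 * 1 := by rw [mul_one]
      _ = _ := by
        rw [← e1]
        simp only [Finset.mul_sum, ← Finset.sum_sub_distrib]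
        exact Finset.sum_congr rfl fun z _ => Finset.sum_congr rfl fun l _ => by ring
  rw [e]
  refine Finset.sum_le_sum fun z _ => Finset.sum_le_sum fun l _ => ?_
  by_cases h : 0 < C.a z.1 l * C.b z.2 l
  · refine mul_le_mul_of_nonneg_left ?_ (mul_nonneg (mu1_nonneg z) h.le)
    have h' := h
    rw [C.mul_pos_iff] at h'
    have ha : 0 < C.a z.1 l := lt_of_le_of_ne (C.ha _ _) h'.1.symm
    have hab : 0 < C.abar l := by
      unfold Chan.abar
      exact div_pos (Finset.sum_pos' (fun x _ => C.ha x l) ⟨z.1, Finset.mem_univ _, ha⟩)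
        (by positivity)
    have hr := hratio z.1 l
    have hlog : log ((1 + C.a z.1 l / C.abar l) / 2) = log (1 + C.a z.1 l / C.abar l) - log 2 :=
      log_div (by positivity) (by norm_num)
    rw [hlog]
    by_cases hc : C.ev s z.1 l
    · rw [ind_pos hc, mul_one]
      have h5 : (Fintype.card A : ℝ) / (16 * s) ≤ C.a z.1 l / C.abar l := by
        unfold Chan.ev at hc
        rw [not_lt] at hc
        rw [div_le_div_iff₀ (by positivity) hab]
        calc (Fintype.card A : ℝ) * C.abar l
            ≤ Fintype.card A * (16 * s / (Fintype.card A : ℝ) * C.a z.1 l) :=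
              mul_le_mul_of_nonneg_left hc h1.le
          _ = C.a z.1 l * (16 * s) := by field_simp
      have h6 : log (Fintype.card A / (16 * s)) ≤ log (1 + C.a z.1 l / C.abar l) :=
        log_le_log (by positivity) (by linarith)
      linarith
    · rw [ind_neg hc, mul_zero]
      have h6 : 0 ≤ log (1 + C.a z.1 l / C.abar l) := log_nonneg (by linarith)
      linarith
  · have h0 : C.a z.1 l * C.b z.2 l = 0 :=
      le_antisymm (not_lt.1 h) (mul_nonneg (C.ha _ l) (C.hb _ l))
    rw [h0]; simp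

/-- Either the structured part carries `C₀` more nats than necessary, or the uniform part carries
a constant fraction of `log K`. -/
theorem Chan.dichotomy (C₀ : ℝ) (hC : 0 ≤ C₀) (s : ℕ) (hs0 : 0 < s)
    (hs : exp (8 * (C₀ + log 3)) * ((s + 1) / 2 ^ s) ≤ 1)
    (hK : 16 * (s : ℝ) ≤ Fintype.card A) :
    log (Fintype.card A) + C₀ ≤ C.info μ mu0 ∨
    3 / (8 * s * exp (8 * (C₀ + log 3))) * log (Fintype.card A / (16 * s)) - log 2 ≤
      C.info μ mu1 := by
  by_cases hT : log (Fintype.card A) + C₀ ≤ C.info μ mu0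
  · exact Or.inl hT
  right
  rw [not_le] at hT
  have hs0' : (0 : ℝ) < s := by exact_mod_cast hs0
  have hlog3 : 0 < log 3 := log_pos (by norm_num)
  set E : ℝ := 8 * (C₀ + log 3) with hE
  have hE0 : 0 < E := by rw [hE]; linarith
  have g1 := C.info_mu0_ge' μ hμ hμ1 s hs0 E hE0.le hs
  set L : ℝ := 2 * s * exp E with hL
  have hL0 : 0 < L := by rw [hL]; positivity
  set P : ℝ := ∑ z : (A × T × R) × ((A → Bool) × T), ∑ l,
    mu0 z * (C.a z.1 l * C.b z.2 l) * ind (C.bad s L z l) with hP
  have g2 : P ≤ 1 / 8 := by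
    have : E * P ≤ E * (1 / 8) := by
      have : E * (1 / 8) = C₀ + log 3 := by rw [hE]; ring
      linarith
    exact le_of_mul_le_mul_left this hE0
  have g3 := C.step5 s hs0
  have g4 := C.step6 s L hL0.le
  have g5 := C.step7 μ hμ hμ1 s hs0
  set P1 : ℝ := ∑ z : (A × T × R) × ((A → Bool) × T), ∑ l,
    mu1 z * (C.a z.1 l * C.b z.2 l) * ind (C.ev s z.1 l) with hP1
  have g6 : 1 ≤ P + (∑ z : (A × T × R) × ((A → Bool) × T), ∑ l,
      mu0 z * (C.a z.1 l * C.b z.2 l) *
      ind ((supp (fun x => C.a x l) z.1.2.1).card ≤ s ∧ ¬ C.ev s z.1 l)) +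
      ∑ z : (A × T × R) × ((A → Bool) × T), ∑ l, mu0 z * (C.a z.1 l * C.b z.2 l) *
      ind (C.b z.2 l ≤ L * C.bbar l ∧ C.ev s z.1 l) := by
    have e1 : ∑ z : (A × T × R) × ((A → Bool) × T), ∑ l, mu0 z * (C.a z.1 l * C.b z.2 l) = 1 := by
      simp only [← Finset.mul_sum, C.hs, mul_one, sum_mu0]
    rw [hP, ← e1]
    simp only [← Finset.sum_add_distrib]
    refine Finset.sum_le_sum fun z _ => Finset.sum_le_sum fun l _ => ?_
    rw [← mul_add, ← mul_add]
    refine le_mul_of_one_le_right (mul_nonneg (mu0_nonneg z)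
      (mul_nonneg (C.ha _ _) (C.hb _ _))) ?_
    have p1 := ind_nonneg (C.bad s L z l)
    have p2 := ind_nonneg ((supp (fun x => C.a x l) z.1.2.1).card ≤ s ∧ ¬ C.ev s z.1 l)
    have p3 := ind_nonneg (C.b z.2 l ≤ L * C.bbar l ∧ C.ev s z.1 l)
    by_cases hb : C.bad s L z l
    · rw [ind_pos hb]; linarith
    · unfold Chan.bad at hb
      rw [not_or, not_lt, not_lt] at hb
      by_cases hc : C.ev s z.1 l
      · rw [ind_pos (show C.b z.2 l ≤ L * C.bbar l ∧ C.ev s z.1 l from ⟨hb.2, hc⟩)]; linarith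
      · rw [ind_pos (show (supp (fun x => C.a x l) z.1.2.1).card ≤ s ∧ ¬ C.ev s z.1 l from
          ⟨hb.1, hc⟩)]; linarith
  have g7 : 3 / 4 ≤ L * P1 := by linarith
  have g8 : 3 / (4 * L) ≤ P1 := by
    rw [div_le_iff₀ (by positivity)]; linarith
  have g9 : 0 ≤ log ((Fintype.card A : ℝ) / (16 * s)) := by
    apply log_nonneg
    rw [le_div_iff₀ (by positivity), one_mul]; exact hK
  have g10 : 3 / (8 * s * exp E) = 3 / (4 * L) := by rw [hL]; congr 1; ring
  rw [g10]
  have g11 := mul_le_mul_of_nonneg_right g8 g9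
  linarith

end

end Pool.Agent.TH702.EI.Low
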