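import Pool.Agent.TH702.EI.Sub

/-!
# Expectations under product distributions
-/

namespace Pool.Agent.TH702.EI

variable {X Y : Type} [Fintype X] [Fintype Y] {μ : X × Y → ℝ}

theorem sum_powMu_prod (n : ℕ) (φ : Fin n → X × Y → ℝ) :
    ∑ z : (Fin n → X) × (Fin n → Y), powMu μ n z * ∏ c, φ c (z.1 c, z.2 c) =
      ∏ c, ∑ s, μ s * φ c s := by
  rw [← sum_prod_pow n (fun c s => μ s * φ c s)]
  refine Finset.sum_congr rfl fun z _ => ?_
  unfold powMu
  rw [← Finset.prod_mul_distrib]

theorem sum_powMu_one (hμ1 : ∑ z, μ z = 1) (n : ℕ) (φ : X × Y → ℝ) (c : Fin n) :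
    ∑ z : (Fin n → X) × (Fin n → Y), powMu μ n z * φ (z.1 c, z.2 c) = ∑ s, μ s * φ s := by
  have h := sum_powMu_prod (μ := μ) n (fun d s => if d = c then φ s else 1)
  have e1 : ∀ z : (Fin n → X) × (Fin n → Y),
      (∏ d, if d = c then φ (z.1 d, z.2 d) else 1) = φ (z.1 c, z.2 c) := by
    intro z
    rw [Finset.prod_eq_single c]
    · simp
    · intro d _ hd; simp [hd]
    · intro h; exact absurd (Finset.mem_univ _) h
  have e2 : (∏ d : Fin n, ∑ s, μ s * (if d = c then φ s else 1)) = ∑ s, μ s * φ s := by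
    rw [Finset.prod_eq_single c]
    · simp
    · intro d _ hd; simp [hd, hμ1]
    · intro h; exact absurd (Finset.mem_univ _) h
  simp only [e1] at h
  rw [h, e2]

theorem sum_powMu_two (hμ1 : ∑ z, μ z = 1) (n : ℕ) (φ : X × Y → ℝ) (c c' : Fin n) (hc : c ≠ c') :
    ∑ z : (Fin n → X) × (Fin n → Y), powMu μ n z * (φ (z.1 c, z.2 c) * φ (z.1 c', z.2 c')) =
      (∑ s, μ s * φ s) ^ 2 := by
  have h := sum_powMu_prod (μ := μ) n
    (fun d s => (if d = c then φ s else 1) * (if d = c' then φ s else 1))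
  have e1 : ∀ z : (Fin n → X) × (Fin n → Y),
      (∏ d, (if d = c then φ (z.1 d, z.2 d) else 1) * (if d = c' then φ (z.1 d, z.2 d) else 1)) =
        φ (z.1 c, z.2 c) * φ (z.1 c', z.2 c') := by
    intro z
    rw [Finset.prod_mul_distrib]
    congr 1
    · rw [Finset.prod_eq_single c]
      · simp
      · intro d _ hd; simp [hd]
      · intro h; exact absurd (Finset.mem_univ _) h
    · rw [Finset.prod_eq_single c']
      · simp
      · intro d _ hd; simp [hd]
      · intro h; exact absurd (Finset.mem_univ _) h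
  have e2 : (∏ d : Fin n, ∑ s, μ s * ((if d = c then φ s else 1) * (if d = c' then φ s else 1))) =
      (∑ s, μ s * φ s) ^ 2 := by
    have e3 : ∀ d : Fin n, ∑ s, μ s * ((if d = c then φ s else 1) * (if d = c' then φ s else 1)) =
        (if d = c then (∑ s, μ s * φ s) else 1) * (if d = c' then (∑ s, μ s * φ s) else 1) := by
      intro d
      by_cases h1 : d = c
      · subst h1; simp [hc]
      · by_cases h2 : d = c'
        · subst h2; simp [h1]
        · simp [h1, h2, hμ1]
    simp only [e3]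
    rw [Finset.prod_mul_distrib, sq]
    congr 1
    · rw [Finset.prod_eq_single c]
      · simp
      · intro d _ hd; simp [hd]
      · intro h; exact absurd (Finset.mem_univ _) h
    · rw [Finset.prod_eq_single c']
      · simp
      · intro d _ hd; simp [hd]
      · intro h; exact absurd (Finset.mem_univ _) h
  simp only [e1] at h
  rw [h, e2]

/-- The first moment of a sum. -/
theorem moment_one (hμ1 : ∑ z, μ z = 1) (n : ℕ) (φ : X × Y → ℝ) :
    ∑ z : (Fin n → X) × (Fin n → Y), powMu μ n z * ∑ c, φ (z.1 c, z.2 c) =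
      n * ∑ s, μ s * φ s := by
  simp only [Finset.mul_sum]
  rw [Finset.sum_comm]
  simp only [sum_powMu_one hμ1 n φ]
  simp [Finset.mul_sum]

/-- The second factorial moment of a sum of zero-one variables. -/
theorem moment_two (hμ1 : ∑ z, μ z = 1) (n : ℕ) (φ : X × Y → ℝ) (hφ : ∀ s, φ s * φ s = φ s) :
    ∑ z : (Fin n → X) × (Fin n → Y), powMu μ n z *
      ((∑ c, φ (z.1 c, z.2 c)) * ((∑ c, φ (z.1 c, z.2 c)) - 1)) =
      n * (n - 1) * (∑ s, μ s * φ s) ^ 2 := by
  set q : ℝ := ∑ s, μ s * φ s with hq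
  have e1 : ∀ z : (Fin n → X) × (Fin n → Y), powMu μ n z *
      ((∑ c, φ (z.1 c, z.2 c)) * ((∑ c, φ (z.1 c, z.2 c)) - 1)) =
      (∑ c, ∑ c', powMu μ n z * (φ (z.1 c, z.2 c) * φ (z.1 c', z.2 c'))) -
        powMu μ n z * ∑ c, φ (z.1 c, z.2 c) := by
    intro z
    have : ∑ c, ∑ c', powMu μ n z * (φ (z.1 c, z.2 c) * φ (z.1 c', z.2 c')) =
        powMu μ n z * ((∑ c, φ (z.1 c, z.2 c)) * ∑ c, φ (z.1 c, z.2 c)) := by
      rw [Finset.sum_mul_sum, Finset.mul_sum]
      exact Finset.sum_congr rfl fun c _ => by rw [Finset.mul_sum]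
    rw [this]; ring
  simp only [e1]
  rw [Finset.sum_sub_distrib, moment_one hμ1 n φ, Finset.sum_comm]
  have e2 : ∀ c : Fin n, ∑ z : (Fin n → X) × (Fin n → Y), ∑ c', powMu μ n z *
      (φ (z.1 c, z.2 c) * φ (z.1 c', z.2 c')) = q + (n - 1) * q ^ 2 := by
    intro c
    rw [Finset.sum_comm]
    have e3 : ∀ c' : Fin n, ∑ z : (Fin n → X) × (Fin n → Y), powMu μ n z *
        (φ (z.1 c, z.2 c) * φ (z.1 c', z.2 c')) = q ^ 2 + if c = c' then q - q ^ 2 else 0 := by
      intro c'
      by_cases h : c = c'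
      · subst h
        simp only [hφ, if_true]
        rw [sum_powMu_one hμ1 n φ c]; ring
      · rw [sum_powMu_two hμ1 n φ c c' h, if_neg h, add_zero]
    simp only [e3]
    rw [Finset.sum_add_distrib, Finset.sum_ite_eq]
    simp
    ring
  simp only [e2]
  rw [← hq]
  simp
  ring

end Pool.Agent.TH702.EI
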