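import Pool.Agent.TH702.EI.Mix

/-!
# The disproof
-/

namespace Pool.Agent.TH702.EI

open Low

theorem exists_s (E : ℝ) : ∃ s : ℕ, 0 < s ∧ Real.exp E * (((s : ℝ) + 1) / 2 ^ s) ≤ 1 := by
  have h := tendsto_pow_const_div_const_pow_of_one_lt 1 (show (1 : ℝ) < 2 by norm_num)
  have h2 : (0 : ℝ) < Real.exp (-E) / 2 := by positivity
  have h3 := (h.eventually (gt_mem_nhds h2)).and (Filter.eventually_ge_atTop 2)
  obtain ⟨n, hn, hn2⟩ := h3.exists
  refine ⟨n - 1, by omega, ?_⟩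
  have h4 : ((n - 1 : ℕ) : ℝ) + 1 = n := by
    have : ((n - 1 + 1 : ℕ) : ℝ) = n := by congr 1; omega
    push_cast at this; exact this
  have h5 : (2 : ℝ) ^ n = 2 ^ (n - 1) * 2 := by
    rw [← pow_succ]; congr 1; omega
  rw [h4]
  rw [pow_one, h5] at hn
  have h6 : (n : ℝ) / 2 ^ (n - 1) < Real.exp (-E) := by
    have e : (n : ℝ) / (2 ^ (n - 1) * 2) = (n : ℝ) / 2 ^ (n - 1) / 2 := by field_simp
    rw [e] at hn
    linarith
  calc Real.exp E * ((n : ℝ) / 2 ^ (n - 1)) ≤ Real.exp E * Real.exp (-E) :=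
        mul_le_mul_of_nonneg_left h6.le (Real.exp_pos _).le
    _ = 1 := by rw [← Real.exp_add]; simp

section
variable {A T R : Type} [Fintype A] [Fintype T] [Fintype R] [DecidableEq A] [DecidableEq T]
  [Nonempty A] [Nonempty T] [Nonempty R] {X Y : Type} [Fintype X] [Fintype Y]

/-- The lower bound, in bits. -/
theorem lower_bits (eX : X ≃ A × T × R) (eY : Y ≃ (A → Bool) × T) (k κ s : ℕ) (D : ℝ)
    (hD : 0 ≤ D) (hk : 0 < k) (hκ : 0 < κ) (hκk : 2 * κ ≤ k) (hA : Fintype.card A = 2 ^ k)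
    (hs0 : 0 < s) (hs : Real.exp (8 * (2 * (3 + D) * Real.log 2 + Real.log 3)) *
      (((s : ℝ) + 1) / 2 ^ s) ≤ 1) (hsk : 16 * s ≤ 2 ^ k) (p : ℝ)
    (hp : p = 3 / (8 * s * Real.exp (8 * (2 * (3 + D) * Real.log 2 + Real.log 3))))
    (hκp : 4 + D ≤ κ * p)
    (hkp : κ * (p * Real.log (16 * s) + Real.log 2) ≤ k * Real.log 2)
    (π : Prot X Y Bool) (h : π.ZeroError (tF eX eY)) :
    (k : ℝ) - κ + 3 + D ≤ π.extInfo (tmu eX eY ((κ : ℝ) / k)) := by
  have hk' : (0 : ℝ) < k := by exact_mod_cast hk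
  have hκ' : (0 : ℝ) < κ := by exact_mod_cast hκ
  have hκk' : 2 * (κ : ℝ) ≤ k := by exact_mod_cast hκk
  have hs0' : (0 : ℝ) < s := by exact_mod_cast hs0
  have hlog2 : 0 < Real.log 2 := Real.log_pos (by norm_num)
  have hlog3 : 0 < Real.log 3 := Real.log_pos (by norm_num)
  set ε : ℝ := (κ : ℝ) / k with hε
  have hε0 : 0 < ε := by rw [hε]; positivity
  have hε2 : ε ≤ 1 / 2 := by rw [hε, div_le_iff₀ hk']; linarith
  have hεk : ε * k = κ := by rw [hε]; field_simp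
  have hcard : (Fintype.card A : ℝ) = 2 ^ k := by rw [hA]; push_cast; rfl
  have hlogK : Real.log (Fintype.card A) = k * Real.log 2 := by
    rw [hcard, Real.log_pow]
  have hmix : ∀ z : (A × T × R) × ((A → Bool) × T), 0 < mix ε z :=
    fun z => mix_pos hε0 (by linarith) z
  have key := extInfo_eq eX eY π h ε
  set Ch := toChan eX eY π h with hCh
  have i0 := Ch.info_mu0_ge (mix ε) hmix (sum_mix ε)
  have i1 := Ch.info_mu1_nonneg (mix ε) hmix (sum_mix ε)
  have dich := Ch.dichotomy (mix ε) hmix (sum_mix ε) (2 * (3 + D) * Real.log 2) (by positivity) s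
    hs0 hs (by rw [hcard]; exact_mod_cast hsk)
  have hloghK2 : Real.log ((Fintype.card A : ℝ) / (16 * s)) =
      k * Real.log 2 - Real.log (16 * s) := by
    rw [Real.log_div (by rw [hcard]; positivity) (by positivity), hlogK]
  rw [← hp, hloghK2, hlogK] at dich
  rw [hlogK] at i0
  set I0 := Ch.info (mix ε) mu0
  set I1 := Ch.info (mix ε) mu1
  have goal : ((k : ℝ) - κ + 3 + D) * Real.log 2 ≤ π.extInfo (tmu eX eY ε) * Real.log 2 := by
    rw [key]
    rcases dich with d | d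
    · have t1 : (1 - ε) * (k * Real.log 2 + 2 * (3 + D) * Real.log 2) ≤ (1 - ε) * I0 :=
        mul_le_mul_of_nonneg_left d (by linarith)
      have t2 : 0 ≤ ε * I1 := mul_nonneg hε0.le i1
      have t3 : (1 - ε) * (k * Real.log 2 + 2 * (3 + D) * Real.log 2) =
          (k - ε * k) * Real.log 2 + (1 - ε) * (2 * (3 + D) * Real.log 2) := by ring
      rw [hεk] at t3
      have t4 : 1 / 2 * (2 * (3 + D) * Real.log 2) ≤ (1 - ε) * (2 * (3 + D) * Real.log 2) :=
        mul_le_mul_of_nonneg_right (by linarith) (by positivity)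
      nlinarith
    · have t1 : (1 - ε) * (k * Real.log 2) ≤ (1 - ε) * I0 :=
        mul_le_mul_of_nonneg_left i0 (by linarith)
      have t2 : ε * (p * (k * Real.log 2 - Real.log (16 * s)) - Real.log 2) ≤ ε * I1 :=
        mul_le_mul_of_nonneg_left d hε0.le
      have t3 : (1 - ε) * (k * Real.log 2) + ε * (p * (k * Real.log 2 - Real.log (16 * s)) -
          Real.log 2) = (k - ε * k) * Real.log 2 + (ε * k) * p * Real.log 2 -
            ε * (p * Real.log (16 * s) + Real.log 2) := by ring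
      rw [hεk] at t3
      have t4 : ε * (p * Real.log (16 * s) + Real.log 2) ≤ Real.log 2 := by
        rw [hε, div_mul_eq_mul_div, div_le_iff₀ hk']
        linarith
      have t5 : (4 + D) * Real.log 2 ≤ κ * p * Real.log 2 :=
        mul_le_mul_of_nonneg_right hκp hlog2.le
      nlinarith
  exact le_of_mul_le_mul_right goal hlog2

/-- The amortized upper bound for one block length. -/
theorem upper_bits [AddCommGroup T] (eX : X ≃ A × T × R) (eY : Y ≃ (A → Bool) × T)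
    (k κ m : ℕ) (hk : 0 < k) (hκ : 0 < κ) (hκk : 2 * κ ≤ k) (hA : Fintype.card A = 2 ^ k)
    (hT : Fintype.card T = 2 ^ m) (hm : κ ≤ 2 ^ m)
    (hkm : κ * (κ * (m + 2) + 2 * (m + 2) ^ 2) ≤ k) :
    avgCC (powF (tF eX eY) (m + 2)) (powMu (tmu eX eY ((κ : ℝ) / k)) (m + 2)) / ((m + 2 : ℕ) : ℝ) ≤
      (k : ℝ) - κ + 3 := by
  have hk' : (0 : ℝ) < k := by exact_mod_cast hk
  have hκ' : (0 : ℝ) < κ := by exact_mod_cast hκ
  have hκk' : 2 * (κ : ℝ) ≤ k := by exact_mod_cast hκk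
  set ε : ℝ := (κ : ℝ) / k with hε
  have hε0 : 0 < ε := by rw [hε]; positivity
  have hε2 : ε ≤ 1 / 2 := by rw [hε, div_le_iff₀ hk']; linarith
  have hεk : ε * k = κ := by rw [hε]; field_simp
  have hu := upper eX eY hε0 (by linarith) k m (m + 2) (by omega) hA.le hT.le
  rw [div_le_iff₀ (by positivity)]
  refine hu.trans ?_
  rw [hT]
  push_cast
  set g : ℝ := (m : ℝ) + 2 with hg
  have hg0 : 2 ≤ g := by
    have : (0 : ℝ) ≤ m := Nat.cast_nonneg m
    linarith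
  have hN : (κ : ℝ) * (1 / 2 ^ m) ≤ 1 := by
    rw [mul_one_div, div_le_one (by positivity)]
    exact_mod_cast hm
  have hkm' : (κ : ℝ) * (κ * g + 2 * g ^ 2) ≤ k := by
    have : ((κ * (κ * (m + 2) + 2 * (m + 2) ^ 2) : ℕ) : ℝ) ≤ k := by exact_mod_cast hkm
    push_cast at this
    exact this
  have h3 : ε * (κ * g + 2 * g ^ 2) ≤ 1 := by
    rw [hε, div_mul_eq_mul_div, div_le_one hk']
    exact hkm'
  have e1 : g + k * (g - g * (ε * (1 - 1 / 2 ^ m))) + k * (g * (g - 1) * ε ^ 2) +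
      2 * ε * g * (g * g) = (1 + k - (ε * k) + (ε * k) * (1 / 2 ^ m) + (ε * k) * (g - 1) * ε +
        2 * ε * g ^ 2) * g := by ring
  rw [e1, hεk]
  refine mul_le_mul_of_nonneg_right ?_ (by linarith)
  nlinarith [mul_pos hκ' hε0]

end

/-- The main theorem. -/
theorem main (C : ℝ) : ∃ (m : ℕ) (F : (Fin m → Bool) → (Fin m → Bool) → Bool)
    (μ : (Fin m → Bool) × (Fin m → Bool) → ℝ), 1 ≤ m ∧ (∀ z, 0 < μ z) ∧ ∑ z, μ z = 1 ∧
    ∃ L : ℝ, Filter.Tendsto (fun n : ℕ => avgCC (powF F n) (powMu μ n) / n) Filter.atTop (nhds L) ∧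
      L + C ≤ ICext F μ := by
  set D : ℝ := |C| with hD
  have hD0 : 0 ≤ D := abs_nonneg C
  have hlog2 : 0 < Real.log 2 := Real.log_pos (by norm_num)
  obtain ⟨s, hs0, hs⟩ := exists_s (8 * (2 * (3 + D) * Real.log 2 + Real.log 3))
  have hs0' : (0 : ℝ) < s := by exact_mod_cast hs0
  obtain ⟨p, hp⟩ : ∃ p : ℝ, p = 3 / (8 * s *
    Real.exp (8 * (2 * (3 + D) * Real.log 2 + Real.log 3))) := ⟨_, rfl⟩
  have hp0 : 0 < p := by rw [hp]; positivity
  obtain ⟨κ, hκ⟩ := exists_nat_ge ((4 + D) / p)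
  have hκp : 4 + D ≤ κ * p := by rwa [div_le_iff₀ hp0] at hκ
  have hκ0 : 0 < κ := by
    rcases Nat.eq_zero_or_pos κ with h | h
    · rw [h] at hκp; simp at hκp; linarith
    · exact h
  obtain ⟨k₁, hk₁⟩ := exists_nat_ge (κ * (p * Real.log (16 * s) + Real.log 2) / Real.log 2)
  rw [div_le_iff₀ hlog2] at hk₁
  obtain ⟨k, hk⟩ : ∃ k : ℕ, k = k₁ + 2 * κ + 16 * s + κ * (κ * (κ + 2) + 2 * (κ + 2) ^ 2) :=
    ⟨_, rfl⟩
  have hk0 : 0 < k := by omega
  have hkk₁ : (k₁ : ℝ) ≤ k := by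
    have : k₁ ≤ k := by rw [hk]; omega
    exact_mod_cast this
  have hκk : 2 * κ ≤ k := by rw [hk]; omega
  have h2k : k ≤ 2 ^ k := Nat.lt_two_pow_self.le
  have hsk : 16 * s ≤ 2 ^ k := le_trans (by rw [hk]; omega) h2k
  have hkp : κ * (p * Real.log (16 * s) + Real.log 2) ≤ k * Real.log 2 :=
    hk₁.trans (mul_le_mul_of_nonneg_right hkk₁ hlog2.le)
  have hkm : κ * (κ * (κ + 2) + 2 * (κ + 2) ^ 2) ≤ k := by rw [hk]; omega
  let A := Fin (2 ^ k)
  let T := Fin κ → ZMod 2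
  let R := Fin (2 ^ k - k) → Bool
  haveI : Nonempty A := ⟨⟨0, by positivity⟩⟩
  have hAc : Fintype.card A = 2 ^ k := Fintype.card_fin _
  have hTc : Fintype.card T = 2 ^ κ := by
    show Fintype.card (Fin κ → ZMod 2) = 2 ^ κ
    rw [Fintype.card_fun, Fintype.card_fin, ZMod.card]
  have hRc : Fintype.card R = 2 ^ (2 ^ k - k) := by
    show Fintype.card (Fin (2 ^ k - k) → Bool) = _
    rw [Fintype.card_fun, Fintype.card_fin, Fintype.card_bool]
  have hXc : Fintype.card (Fin (2 ^ k + κ) → Bool) = Fintype.card (A × T × R) := by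
    rw [Fintype.card_prod, Fintype.card_prod, hAc, hTc, hRc, Fintype.card_fun, Fintype.card_fin,
      Fintype.card_bool, ← pow_add, ← pow_add]
    congr 1
    omega
  have hYc : Fintype.card (Fin (2 ^ k + κ) → Bool) = Fintype.card ((A → Bool) × T) := by
    rw [Fintype.card_prod, Fintype.card_fun, Fintype.card_fun, hAc, hTc, Fintype.card_fin,
      Fintype.card_bool, ← pow_add]
  let eX : (Fin (2 ^ k + κ) → Bool) ≃ A × T × R := Fintype.equivOfCardEq hXc
  let eY : (Fin (2 ^ k + κ) → Bool) ≃ (A → Bool) × T := Fintype.equivOfCardEq hYc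
  have hε0 : (0 : ℝ) < (κ : ℝ) / k := by positivity
  have hε1 : (κ : ℝ) / k ≤ 1 := by
    rw [div_le_one (by exact_mod_cast hk0)]
    exact_mod_cast (by omega : κ ≤ k)
  refine ⟨2 ^ k + κ, tF eX eY, tmu eX eY ((κ : ℝ) / k), by omega,
    fun z => mix_pos hε0 hε1 _, sum_tmu_one eX eY _, ?_⟩
  obtain ⟨L, hL, hLe⟩ := exists_lim (tF eX eY) (μ := tmu eX eY ((κ : ℝ) / k))
    (fun z => (mix_pos hε0 hε1 _).le) (sum_tmu_one eX eY _)
  refine ⟨L, hL, ?_⟩
  have h1 : L ≤ (k : ℝ) - κ + 3 := (hLe (κ + 2) (by omega)).trans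
    (upper_bits eX eY k κ κ hk0 hκ0 hκk hAc hTc Nat.lt_two_pow_self.le hkm)
  have h2 : (k : ℝ) - κ + 3 + D ≤ ICext (tF eX eY) (tmu eX eY ((κ : ℝ) / k)) := by
    obtain ⟨π, hπ⟩ := exists_zeroError (tF eX eY)
    refine le_csInf ⟨_, π, hπ, rfl⟩ ?_
    rintro r ⟨π', hπ', rfl⟩
    exact lower_bits eX eY k κ s D hD0 hk0 hκ0 hκk hAc hs0 hs hsk p hp hκp hkp π' hπ'
  have h3 : C ≤ D := le_abs_self C
  linarith

end Pool.Agent.TH702.EI
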