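import Mathlib

/-!
# A variational lower bound for information, and counting lemmas
-/

namespace Pool.Agent.TH702.EI.Low

open Real

theorem gibbs_pointwise {ν p Q g : ℝ} (hν : 0 ≤ ν) (hp : 0 ≤ p) (hQ : 0 ≤ Q) (hg : 0 ≤ g)
    (hQ' : 0 < ν → 0 < p → 0 < Q) (hg' : 0 < ν → 0 < p → 0 < g) :
    ν * p - ν * (Q * g) ≤ ν * p * log (p / Q) - ν * p * log g := by
  rcases hν.eq_or_lt with h | h
  · rw [← h]; simp
  rcases hp.eq_or_lt with h2 | h2
  · rw [← h2]; simp only [mul_zero, zero_mul, sub_self, zero_sub]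
    have := mul_nonneg hν (mul_nonneg hQ hg)
    linarith
  have hQp := hQ' h h2
  have hgp := hg' h h2
  have h3 : log (p / Q) - log g = - log (Q * g / p) := by
    rw [log_div h2.ne' hQp.ne', log_div (mul_pos hQp hgp).ne' h2.ne', log_mul hQp.ne' hgp.ne']
    ring
  have h4 : log (Q * g / p) ≤ Q * g / p - 1 := log_le_sub_one_of_pos (by positivity)
  have h5 : ν * p * log (p / Q) - ν * p * log g = ν * p * (- log (Q * g / p)) := by
    rw [← h3]; ring
  rw [h5]
  have h6 : ν * p * (1 - Q * g / p) ≤ ν * p * (- log (Q * g / p)) :=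
    mul_le_mul_of_nonneg_left (by linarith) (by positivity)
  have h7 : ν * p * (1 - Q * g / p) = ν * p - ν * (Q * g) := by
    field_simp
  linarith

/-- The variational lower bound. -/
theorem gibbs {Z Λ : Type*} [Fintype Z] [Fintype Λ] (μ ν : Z → ℝ) (p : Z → Λ → ℝ)
    (hp : ∀ z l, 0 ≤ p z l) (hps : ∀ z, ∑ l, p z l = 1) (hμ : ∀ z, 0 ≤ μ z) (hμ1 : ∑ z, μ z = 1)
    (hν : ∀ z, 0 ≤ ν z) (hν1 : ∑ z, ν z = 1) (hac : ∀ z, 0 < ν z → 0 < μ z)
    (g : Z → Λ → ℝ) (hg : ∀ z l, 0 ≤ g z l) (hg' : ∀ z l, 0 < ν z → 0 < p z l → 0 < g z l)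
    (hg1 : ∀ l, ∑ z, ν z * g z l ≤ 1) :
    ∑ z, ∑ l, ν z * p z l * log (g z l) ≤
      ∑ z, ∑ l, ν z * p z l * log (p z l / ∑ w, μ w * p w l) := by
  have hQ : ∀ l, 0 ≤ ∑ w, μ w * p w l := fun l =>
    Finset.sum_nonneg fun w _ => mul_nonneg (hμ w) (hp w l)
  have hQ' : ∀ z l, 0 < ν z → 0 < p z l → 0 < ∑ w, μ w * p w l := fun z l h1 h2 =>
    Finset.sum_pos' (fun w _ => mul_nonneg (hμ w) (hp w l))
      ⟨z, Finset.mem_univ _, mul_pos (hac z h1) h2⟩
  have h1 : ∑ z, ∑ l, (ν z * p z l - ν z * ((∑ w, μ w * p w l) * g z l)) ≤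
      ∑ z, ∑ l, (ν z * p z l * log (p z l / ∑ w, μ w * p w l) - ν z * p z l * log (g z l)) :=
    Finset.sum_le_sum fun z _ => Finset.sum_le_sum fun l _ =>
      gibbs_pointwise (hν z) (hp z l) (hQ l) (hg z l) (hQ' z l) (hg' z l)
  have h2 : ∑ z, ∑ l, (ν z * p z l - ν z * ((∑ w, μ w * p w l) * g z l))
      = ∑ z, ∑ l, ν z * p z l - ∑ l, (∑ w, μ w * p w l) * ∑ z, ν z * g z l := by
    simp only [Finset.sum_sub_distrib]
    congr 1
    rw [Finset.sum_comm]
    refine Finset.sum_congr rfl fun l _ => ?_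
    rw [Finset.mul_sum]
    exact Finset.sum_congr rfl fun z _ => by ring
  have h3 : ∑ z, ∑ l, ν z * p z l = 1 := by
    simp only [← Finset.mul_sum, hps, mul_one, hν1]
  have h4 : ∑ l, (∑ w, μ w * p w l) * ∑ z, ν z * g z l ≤ 1 := by
    calc ∑ l, (∑ w, μ w * p w l) * ∑ z, ν z * g z l ≤ ∑ l, (∑ w, μ w * p w l) * 1 :=
          Finset.sum_le_sum fun l _ => mul_le_mul_of_nonneg_left (hg1 l) (hQ l)
      _ = 1 := by
          simp only [mul_one]
          rw [Finset.sum_comm]
          simp only [← Finset.mul_sum, hps, mul_one, hμ1]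
  rw [h2, h3] at h1
  simp only [Finset.sum_sub_distrib] at h1
  linarith

/-- The indicator of a proposition. -/
noncomputable def ind (P : Prop) : ℝ := by
  classical exact if P then 1 else 0

theorem ind_pos {P : Prop} (h : P) : ind P = 1 := by unfold ind; exact if_pos h
theorem ind_neg {P : Prop} (h : ¬P) : ind P = 0 := by unfold ind; exact if_neg h
theorem ind_nonneg (P : Prop) : 0 ≤ ind P := by
  by_cases h : P
  · rw [ind_pos h]; norm_num
  · rw [ind_neg h]
theorem ind_le_one (P : Prop) : ind P ≤ 1 := by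
  by_cases h : P
  · rw [ind_pos h]
  · rw [ind_neg h]; norm_num
theorem ind_mono {P Q : Prop} (h : P → Q) : ind P ≤ ind Q := by
  by_cases hp : P
  · rw [ind_pos hp, ind_pos (h hp)]
  · rw [ind_neg hp]; exact ind_nonneg Q
theorem ind_compl (P : Prop) : ind P + ind (¬P) = 1 := by
  by_cases h : P
  · rw [ind_pos h, ind_neg (not_not.2 h)]; norm_num
  · rw [ind_neg h, ind_pos h]; norm_num

/-- The number of functions which are `true` on a given set. -/
theorem sum_ind_true {A : Type*} [Fintype A] [DecidableEq A] (I : Finset A) :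
    ∑ f : A → Bool, ind (∀ i ∈ I, f i = true) = 2 ^ (Fintype.card A) / 2 ^ I.card := by
  classical
  have h1 : ∀ f : A → Bool, ind (∀ i ∈ I, f i = true) =
      ∏ i, (if i ∈ I then (if f i = true then (1 : ℝ) else 0) else 1) := by
    intro f
    by_cases h : ∀ i ∈ I, f i = true
    · rw [ind_pos h]
      symm
      apply Finset.prod_eq_one
      intro i _
      by_cases hi : i ∈ I
      · simp [hi, h i hi]
      · simp [hi]
    · rw [ind_neg h]
      push Not at h
      obtain ⟨i, hi, hf⟩ := h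
      symm
      apply Finset.prod_eq_zero (Finset.mem_univ i)
      simp [hi, hf]
  simp only [h1]
  have h2 := Finset.prod_univ_sum (fun _ : A => (Finset.univ : Finset Bool))
    (fun i b => (if i ∈ I then (if b = true then (1 : ℝ) else 0) else 1))
  rw [Fintype.piFinset_univ] at h2
  rw [← h2]
  have h3 : ∀ i : A, ∑ b : Bool, (if i ∈ I then (if b = true then (1 : ℝ) else 0) else 1)
      = 2 * (if i ∈ I then 1 / 2 else 1) := by
    intro i
    by_cases hi : i ∈ I
    · simp [hi]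
    · simp [hi]
  simp only [h3]
  rw [Finset.prod_mul_distrib, Finset.prod_const, Finset.card_univ, Finset.prod_ite_mem,
    Finset.univ_inter, Finset.prod_const]
  rw [one_div, inv_pow]; rfl

theorem nat_div_two_pow_le (n : ℕ) : (n : ℝ) / 2 ^ n ≤ 1 / 2 := by
  rw [div_le_div_iff₀ (by positivity) (by norm_num)]
  have h : 2 * n ≤ 2 ^ n := by
    induction n with
    | zero => simp
    | succ k ih =>
      rcases Nat.eq_zero_or_pos k with h0 | h0
      · subst h0; norm_num
      · rw [pow_succ]; omega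
  have h2 : ((2 * n : ℕ) : ℝ) ≤ ((2 ^ n : ℕ) : ℝ) := by exact_mod_cast h
  push_cast at h2
  linarith

theorem nat_div_two_pow_anti {s n : ℕ} (h : s < n) :
    (n : ℝ) / 2 ^ n ≤ (s + 1) / 2 ^ (s + 1) := by
  induction n, h using Nat.le_induction with
  | base => push_cast; rfl
  | succ k hk ih =>
    refine le_trans ?_ ih
    rw [div_le_div_iff₀ (by positivity) (by positivity), pow_succ]
    have h1 : (1 : ℝ) ≤ k := by
      have : 1 ≤ k := by omega
      exact_mod_cast this
    push_cast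
    nlinarith [pow_pos (show (0 : ℝ) < 2 by norm_num) k]

end Pool.Agent.TH702.EI.Low
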