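import Pool.Agent.TH702.EI.Count

/-!
# The lower bound for the external information of a zero-error channel
-/

namespace Pool.Agent.TH702.EI.Low

open Real

theorem cardA_pos {B : Type} [Fintype B] [Nonempty B] : (0 : ℝ) < Fintype.card B := by
  exact_mod_cast Fintype.card_pos

variable {A T R : Type} [Fintype A] [Fintype T] [Fintype R] [DecidableEq A]
  [Nonempty A] [Nonempty T] [Nonempty R]

set_option linter.unusedSectionVars false

/-- The structured input distribution. -/
noncomputable def mu0 (z : (A × T × R) × ((A → Bool) × T)) : ℝ :=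
  2 / (Fintype.card A * Fintype.card T * Fintype.card R * 2 ^ Fintype.card A) * ind (Hit z.1 z.2)

/-- The uniform input distribution. -/
noncomputable def mu1 (_ : (A × T × R) × ((A → Bool) × T)) : ℝ :=
  1 / ((Fintype.card A * Fintype.card T * Fintype.card R) *
    (2 ^ Fintype.card A * Fintype.card T))

theorem cardX : (Fintype.card (A × T × R) : ℝ) =
    Fintype.card A * Fintype.card T * Fintype.card R := by
  rw [Fintype.card_prod, Fintype.card_prod]; push_cast; ring
theorem cardY : (Fintype.card ((A → Bool) × T) : ℝ) = 2 ^ Fintype.card A * Fintype.card T := by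
  rw [Fintype.card_prod, Fintype.card_fun]; simp

theorem mu0_nonneg (z : (A × T × R) × ((A → Bool) × T)) : 0 ≤ mu0 z :=
  mul_nonneg (by positivity) (ind_nonneg _)

theorem mu1_nonneg (z : (A × T × R) × ((A → Bool) × T)) : 0 ≤ mu1 z := by
  unfold mu1; positivity

theorem sum_mu0_right (x : A × T × R) : ∑ y, mu0 (x, y) =
    1 / (Fintype.card A * Fintype.card T * Fintype.card R) := by
  unfold mu0
  simp only
  rw [← Finset.mul_sum, sum_hit]
  have h1 : (0 : ℝ) < Fintype.card A := cardA_pos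
  have h2 : (0 : ℝ) < Fintype.card T := cardA_pos
  have h3 : (0 : ℝ) < Fintype.card R := cardA_pos
  field_simp

theorem sum_mu0 : ∑ z : (A × T × R) × ((A → Bool) × T), mu0 z = 1 := by
  rw [Fintype.sum_prod_type]
  simp only [sum_mu0_right]
  rw [Finset.sum_const, Finset.card_univ, nsmul_eq_mul, cardX]
  have h1 : (0 : ℝ) < Fintype.card A := cardA_pos
  have h2 : (0 : ℝ) < Fintype.card T := cardA_pos
  have h3 : (0 : ℝ) < Fintype.card R := cardA_pos
  field_simp

theorem sum_mu1 : ∑ z : (A × T × R) × ((A → Bool) × T), mu1 z = 1 := by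
  unfold mu1
  rw [Finset.sum_const, Finset.card_univ, nsmul_eq_mul, Fintype.card_prod, Nat.cast_mul, cardX,
    cardY]
  have h1 : (0 : ℝ) < Fintype.card A := cardA_pos
  have h2 : (0 : ℝ) < Fintype.card T := cardA_pos
  have h3 : (0 : ℝ) < Fintype.card R := cardA_pos
  field_simp

/-- Normalized first counting inequality. -/
theorem norm_one (α : A × T × R → ℝ) (β : (A → Bool) × T → ℝ)
    (hab : ∀ x y, α x ≠ 0 → β y ≠ 0 → x.2.1 = y.2 → y.1 x.1 = true) (φ : T → ℝ)
    (hφ : ∀ z, 0 ≤ φ z) (κ : ℝ)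
    (hκ : ∀ z, φ z * ((supp α z).card / 2 ^ (supp α z).card) ≤ κ) :
    ∑ z : (A × T × R) × ((A → Bool) × T),
      mu0 z * (ind (α z.1 ≠ 0) * ind (β z.2 ≠ 0) * φ z.1.2.1) ≤ 2 * κ / Fintype.card A := by
  have h1 : (0 : ℝ) < Fintype.card A := cardA_pos
  have h2 : (0 : ℝ) < Fintype.card T := cardA_pos
  have h3 : (0 : ℝ) < Fintype.card R := cardA_pos
  have h4 := count_one α β hab φ hφ
  have h5 : ∑ z, φ z * ((supp α z).card / 2 ^ (supp α z).card * 2 ^ Fintype.card A) ≤
      Fintype.card T * (κ * 2 ^ Fintype.card A) := by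
    calc ∑ z, φ z * ((supp α z).card / 2 ^ (supp α z).card * 2 ^ Fintype.card A)
        ≤ ∑ _z : T, κ * 2 ^ Fintype.card A := by
          refine Finset.sum_le_sum fun z _ => ?_
          rw [← mul_assoc]
          exact mul_le_mul_of_nonneg_right (hκ z) (by positivity)
      _ = _ := by rw [Finset.sum_const, Finset.card_univ, nsmul_eq_mul]
  have h6 : ∑ z : (A × T × R) × ((A → Bool) × T),
      mu0 z * (ind (α z.1 ≠ 0) * ind (β z.2 ≠ 0) * φ z.1.2.1) =
      2 / (Fintype.card A * Fintype.card T * Fintype.card R * 2 ^ Fintype.card A) *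
        ∑ x, ∑ y, ind (Hit x y) * (ind (α x ≠ 0) * ind (β y ≠ 0)) * φ x.2.1 := by
    rw [Fintype.sum_prod_type, Finset.mul_sum]
    refine Finset.sum_congr rfl fun x _ => ?_
    rw [Finset.mul_sum]
    refine Finset.sum_congr rfl fun y _ => ?_
    unfold mu0; simp only; ring
  rw [h6]
  calc 2 / (Fintype.card A * Fintype.card T * Fintype.card R * 2 ^ Fintype.card A) *
        ∑ x, ∑ y, ind (Hit x y) * (ind (α x ≠ 0) * ind (β y ≠ 0)) * φ x.2.1
      ≤ 2 / (Fintype.card A * Fintype.card T * Fintype.card R * 2 ^ Fintype.card A) *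
        (Fintype.card R * (Fintype.card T * (κ * 2 ^ Fintype.card A))) :=
        mul_le_mul_of_nonneg_left (h4.trans (mul_le_mul_of_nonneg_left h5 h3.le)) (by positivity)
    _ = 2 * κ / Fintype.card A := by field_simp

/-- Normalized second counting inequality. -/
theorem norm_two (α : A × T × R → ℝ) (s : ℕ) (h : (A → Bool) × T → ℝ) (hh : ∀ y, 0 ≤ h y) :
    ∑ z : (A × T × R) × ((A → Bool) × T),
      mu0 z * (ind (α z.1 ≠ 0) * ind ((supp α z.1.2.1).card ≤ s) * h z.2) ≤
      2 * s / Fintype.card A * ((∑ y, h y) / (2 ^ Fintype.card A * Fintype.card T)) := by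
  have h1 : (0 : ℝ) < Fintype.card A := cardA_pos
  have h2 : (0 : ℝ) < Fintype.card T := cardA_pos
  have h3 : (0 : ℝ) < Fintype.card R := cardA_pos
  have h4 := count_two α s h hh
  have h6 : ∑ z : (A × T × R) × ((A → Bool) × T),
      mu0 z * (ind (α z.1 ≠ 0) * ind ((supp α z.1.2.1).card ≤ s) * h z.2) =
      2 / (Fintype.card A * Fintype.card T * Fintype.card R * 2 ^ Fintype.card A) *
        ∑ x, ∑ y, ind (Hit x y) * (ind (α x ≠ 0) * ind ((supp α x.2.1).card ≤ s)) * h y := by
    rw [Fintype.sum_prod_type, Finset.mul_sum]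
    refine Finset.sum_congr rfl fun x _ => ?_
    rw [Finset.mul_sum]
    refine Finset.sum_congr rfl fun y _ => ?_
    unfold mu0; simp only; ring
  rw [h6]
  calc 2 / (Fintype.card A * Fintype.card T * Fintype.card R * 2 ^ Fintype.card A) *
        ∑ x, ∑ y, ind (Hit x y) * (ind (α x ≠ 0) * ind ((supp α x.2.1).card ≤ s)) * h y
      ≤ 2 / (Fintype.card A * Fintype.card T * Fintype.card R * 2 ^ Fintype.card A) *
        (Fintype.card R * s * ∑ y, h y) := mul_le_mul_of_nonneg_left h4 (by positivity)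
    _ = _ := by field_simp

/-- A zero-error channel with product structure. -/
structure Chan (A T R Λ : Type) [Fintype Λ] where
  a : A × T × R → Λ → ℝ
  b : (A → Bool) × T → Λ → ℝ
  out : Λ → Bool
  ha : ∀ x l, 0 ≤ a x l
  hb : ∀ y l, 0 ≤ b y l
  hs : ∀ x y, ∑ l, a x l * b y l = 1
  hz : ∀ x y l, 0 < a x l * b y l → (out l = true ↔ (x.2.1 ≠ y.2 ∨ y.1 x.1 = true))

variable {Λ : Type} [Fintype Λ] (C : Chan A T R Λ)

/-- The mean of Alice's factor. -/
noncomputable def Chan.abar (l : Λ) : ℝ :=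
  (∑ x, C.a x l) / (Fintype.card A * Fintype.card T * Fintype.card R)

/-- The mean of Bob's factor. -/
noncomputable def Chan.bbar (l : Λ) : ℝ :=
  (∑ y, C.b y l) / (2 ^ Fintype.card A * Fintype.card T)

theorem Chan.abar_nonneg (l : Λ) : 0 ≤ C.abar l :=
  div_nonneg (Finset.sum_nonneg fun x _ => C.ha x l) (by positivity)

theorem Chan.bbar_nonneg (l : Λ) : 0 ≤ C.bbar l :=
  div_nonneg (Finset.sum_nonneg fun x _ => C.hb x l) (by positivity)

theorem Chan.sum_bar : ∑ l, C.abar l * C.bbar l = 1 := by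
  have h1 : (0 : ℝ) < Fintype.card A := cardA_pos
  have h2 : (0 : ℝ) < Fintype.card T := cardA_pos
  have h3 : (0 : ℝ) < Fintype.card R := cardA_pos
  have e : ∀ l, C.abar l * C.bbar l =
      (∑ x, ∑ y, C.a x l * C.b y l) / ((Fintype.card A * Fintype.card T * Fintype.card R) *
        (2 ^ Fintype.card A * Fintype.card T)) := by
    intro l
    unfold Chan.abar Chan.bbar
    rw [div_mul_div_comm, Finset.sum_mul_sum]
  simp only [e]
  rw [← Finset.sum_div, Finset.sum_comm]
  have e2 : ∀ x, ∑ l, ∑ y, C.a x l * C.b y l = 2 ^ Fintype.card A * Fintype.card T := by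
    intro x
    rw [Finset.sum_comm]
    simp only [C.hs]
    rw [Finset.sum_const, Finset.card_univ, nsmul_eq_mul, cardY, mul_one]
  simp only [e2]
  rw [Finset.sum_const, Finset.card_univ, nsmul_eq_mul, cardX]
  field_simp

/-- The part of the information carried by `ν`. -/
noncomputable def Chan.info (μ ν : (A × T × R) × ((A → Bool) × T) → ℝ) : ℝ :=
  ∑ z, ∑ l, ν z * (C.a z.1 l * C.b z.2 l) *
    log (C.a z.1 l * C.b z.2 l / ∑ w, μ w * (C.a w.1 l * C.b w.2 l))

theorem Chan.mul_pos_iff (x : A × T × R) (y : (A → Bool) × T) (l : Λ) :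
    0 < C.a x l * C.b y l ↔ (C.a x l ≠ 0 ∧ C.b y l ≠ 0) := by
  constructor
  · intro h
    constructor
    · intro h0; rw [h0, zero_mul] at h; exact lt_irrefl _ h
    · intro h0; rw [h0, mul_zero] at h; exact lt_irrefl _ h
  · rintro ⟨h1, h2⟩
    exact mul_pos (lt_of_le_of_ne (C.ha x l) h1.symm) (lt_of_le_of_ne (C.hb y l) h2.symm)

theorem Chan.hab {l : Λ} (hl : C.out l = true) (x : A × T × R) (y : (A → Bool) × T)
    (h1 : C.a x l ≠ 0) (h2 : C.b y l ≠ 0) (h3 : x.2.1 = y.2) : y.1 x.1 = true := by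
  have h4 := (C.hz x y l ((C.mul_pos_iff x y l).2 ⟨h1, h2⟩)).1 hl
  rcases h4 with h4 | h4
  · exact absurd h3 h4
  · exact h4

theorem Chan.hout {l : Λ} (hl : C.out l = false) (z : (A × T × R) × ((A → Bool) × T)) :
    mu0 z * (ind (C.a z.1 l ≠ 0) * ind (C.b z.2 l ≠ 0)) = 0 := by
  by_cases h : Hit z.1 z.2
  · by_cases h1 : C.a z.1 l ≠ 0
    · by_cases h2 : C.b z.2 l ≠ 0
      · have := (C.hz z.1 z.2 l ((C.mul_pos_iff _ _ l).2 ⟨h1, h2⟩)).2 (Or.inr h.2)
        rw [hl] at this
        exact absurd this (by simp)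
      · rw [ind_neg h2, mul_zero, mul_zero]
    · rw [ind_neg h1, zero_mul, mul_zero]
  · unfold mu0
    rw [ind_neg h, mul_zero, zero_mul]

/-- The weight of the bad events. -/
def Chan.bad (s : ℕ) (L : ℝ) (z : (A × T × R) × ((A → Bool) × T)) (l : Λ) : Prop :=
  s < (supp (fun x => C.a x l) z.1.2.1).card ∨ L * C.bbar l < C.b z.2 l

section
variable (μ : (A × T × R) × ((A → Bool) × T) → ℝ) (hμ : ∀ z, 0 < μ z) (hμ1 : ∑ z, μ z = 1)

include hμ hμ1

theorem Chan.gibbs (ν : (A × T × R) × ((A → Bool) × T) → ℝ)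
    (hν : ∀ z, 0 ≤ ν z) (hν1 : ∑ z, ν z = 1)
    (g : (A × T × R) × ((A → Bool) × T) → Λ → ℝ) (hg : ∀ z l, 0 ≤ g z l)
    (hg' : ∀ z l, 0 < C.a z.1 l * C.b z.2 l → 0 < g z l)
    (hg1 : ∀ l, ∑ z, ν z * g z l ≤ 1) :
    ∑ z, ∑ l, ν z * (C.a z.1 l * C.b z.2 l) * log (g z l) ≤ C.info μ ν :=
  Low.gibbs μ ν (fun z l => C.a z.1 l * C.b z.2 l)
    (fun z l => mul_nonneg (C.ha _ l) (C.hb _ l)) (fun z => C.hs _ _) (fun z => (hμ z).le) hμ1
    hν hν1 (fun z _ => hμ z) g hg (fun z l _ h => hg' z l h) hg1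

theorem Chan.info_mu0_ge : log (Fintype.card A) ≤ C.info μ mu0 := by
  have h1 : (0 : ℝ) < Fintype.card A := cardA_pos
  have key := C.gibbs μ hμ hμ1 mu0 mu0_nonneg sum_mu0
    (fun z l => Fintype.card A * (ind (C.a z.1 l ≠ 0) * ind (C.b z.2 l ≠ 0)))
    (fun z l => mul_nonneg h1.le (mul_nonneg (ind_nonneg _) (ind_nonneg _)))
    (fun z l h => by
      rw [C.mul_pos_iff] at h
      rw [ind_pos h.1, ind_pos h.2, mul_one, mul_one]; exact h1)
    (fun l => by
      cases hl : C.out l with
      | false =>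
        refine (Finset.sum_eq_zero fun z _ => ?_).le.trans zero_le_one
        rw [mul_left_comm, C.hout hl, mul_zero]
      | true =>
        have h := norm_one (fun x => C.a x l) (fun y => C.b y l)
          (fun x y h1 h2 h3 => C.hab hl x y h1 h2 h3) (fun _ => 1) (fun _ => zero_le_one) (1 / 2)
          (fun z => by rw [one_mul]; exact nat_div_two_pow_le _)
        have e : ∑ z : (A × T × R) × ((A → Bool) × T),
            mu0 z * (Fintype.card A * (ind (C.a z.1 l ≠ 0) * ind (C.b z.2 l ≠ 0))) =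
            Fintype.card A * ∑ z : (A × T × R) × ((A → Bool) × T),
              mu0 z * (ind (C.a z.1 l ≠ 0) * ind (C.b z.2 l ≠ 0) * 1) := by
          rw [Finset.mul_sum]
          exact Finset.sum_congr rfl fun z _ => by ring
        rw [e]
        calc _ ≤ (Fintype.card A : ℝ) * (2 * (1 / 2) / Fintype.card A) :=
              mul_le_mul_of_nonneg_left h h1.le
          _ = 1 := by field_simp)
  refine le_trans (le_of_eq ?_) key
  have e : ∀ z : (A × T × R) × ((A → Bool) × T), ∀ l, mu0 z * (C.a z.1 l * C.b z.2 l) *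
      log (Fintype.card A * (ind (C.a z.1 l ≠ 0) * ind (C.b z.2 l ≠ 0))) =
      mu0 z * log (Fintype.card A) * (C.a z.1 l * C.b z.2 l) := by
    intro z l
    by_cases h : 0 < C.a z.1 l * C.b z.2 l
    · have h' := h
      rw [C.mul_pos_iff] at h'
      rw [ind_pos h'.1, ind_pos h'.2, mul_one, mul_one]; ring
    · have h0 : C.a z.1 l * C.b z.2 l = 0 :=
        le_antisymm (not_lt.1 h) (mul_nonneg (C.ha _ l) (C.hb _ l))
      rw [h0]; ring
  simp only [e]
  simp only [← Finset.mul_sum, C.hs, mul_one]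
  rw [← Finset.sum_mul, sum_mu0, one_mul]

theorem Chan.info_mu1_nonneg : 0 ≤ C.info μ mu1 := by
  have key := C.gibbs μ hμ hμ1 mu1 mu1_nonneg sum_mu1 (fun _ _ => 1) (fun _ _ => zero_le_one)
    (fun _ _ _ => zero_lt_one) (fun l => by simp [sum_mu1])
  simpa using key

/-- The refined lower bound for the structured part. -/
theorem Chan.info_mu0_ge' (s : ℕ) (hs0 : 0 < s) (E : ℝ) (hE : 0 ≤ E)
    (hs : exp E * ((s + 1) / 2 ^ s) ≤ 1) :
    log (Fintype.card A) - log 3 + E * ∑ z, ∑ l, mu0 z * (C.a z.1 l * C.b z.2 l) *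
      ind (C.bad s (2 * s * exp E) z l) ≤ C.info μ mu0 := by
  have h1 : (0 : ℝ) < Fintype.card A := cardA_pos
  have hs0' : (0 : ℝ) < s := by exact_mod_cast hs0
  set K : ℝ := (Fintype.card A : ℝ) with hK
  set ρ : ℝ := (s + 1) / 2 ^ s with hρ
  have hρ0 : 0 < ρ := by rw [hρ]; positivity
  let g : (A × T × R) × ((A → Bool) × T) → Λ → ℝ := fun z l =>
    1 / 3 * (ind (C.a z.1 l ≠ 0) * ind (C.b z.2 l ≠ 0)) *
      (K + K / ρ * ind (s < (supp (fun x => C.a x l) z.1.2.1).card) +
        K / (2 * s) * (ind ((supp (fun x => C.a x l) z.1.2.1).card ≤ s) *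
          (C.b z.2 l / C.bbar l)))
  have hbr : ∀ (z : (A × T × R) × ((A → Bool) × T)) (l : Λ), 0 ≤ K / ρ *
      ind (s < (supp (fun x => C.a x l) z.1.2.1).card) ∧ 0 ≤ K / (2 * s) *
      (ind ((supp (fun x => C.a x l) z.1.2.1).card ≤ s) * (C.b z.2 l / C.bbar l)) := by
    intro z l
    refine ⟨mul_nonneg (by positivity) (ind_nonneg _), mul_nonneg (by positivity)
      (mul_nonneg (ind_nonneg _) (div_nonneg (C.hb _ _) (C.bbar_nonneg _)))⟩
  have hg0 : ∀ z l, 0 ≤ g z l := fun z l =>
    mul_nonneg (mul_nonneg (by norm_num) (mul_nonneg (ind_nonneg _) (ind_nonneg _)))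
      (by linarith [(hbr z l).1, (hbr z l).2])
  have hgp : ∀ z l, 0 < C.a z.1 l * C.b z.2 l → 0 < g z l := by
    intro z l h
    rw [C.mul_pos_iff] at h
    show 0 < 1 / 3 * (ind (C.a z.1 l ≠ 0) * ind (C.b z.2 l ≠ 0)) * _
    rw [ind_pos h.1, ind_pos h.2]
    exact mul_pos (by norm_num) (by linarith [(hbr z l).1, (hbr z l).2])
  have hg1 : ∀ l, ∑ z, mu0 z * g z l ≤ 1 := by
    intro l
    cases hl : C.out l with
    | false =>
      refine (Finset.sum_eq_zero fun z _ => ?_).le.trans zero_le_one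
      have := C.hout hl z
      show mu0 z * (1 / 3 * (ind (C.a z.1 l ≠ 0) * ind (C.b z.2 l ≠ 0)) * _) = 0
      calc _ = (mu0 z * (ind (C.a z.1 l ≠ 0) * ind (C.b z.2 l ≠ 0))) * (1 / 3 *
            (K + K / ρ * ind (s < (supp (fun x => C.a x l) z.1.2.1).card) +
        K / (2 * s) * (ind ((supp (fun x => C.a x l) z.1.2.1).card ≤ s) *
          (C.b z.2 l / C.bbar l)))) := by ring
        _ = 0 := by rw [this, zero_mul]
    | true =>
      have n1 := norm_one (fun x => C.a x l) (fun y => C.b y l)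
        (fun x y h1 h2 h3 => C.hab hl x y h1 h2 h3) (fun _ => 1) (fun _ => zero_le_one) (1 / 2)
        (fun z => by rw [one_mul]; exact nat_div_two_pow_le _)
      have n2 := norm_one (fun x => C.a x l) (fun y => C.b y l)
        (fun x y h1 h2 h3 => C.hab hl x y h1 h2 h3)
        (fun z => ind (s < (supp (fun x => C.a x l) z).card)) (fun _ => ind_nonneg _)
        ((s + 1) / 2 ^ (s + 1))
        (fun z => by
          by_cases h : s < (supp (fun x => C.a x l) z).card
          · rw [ind_pos h, one_mul]; exact nat_div_two_pow_anti h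
          · rw [ind_neg h, zero_mul]; positivity)
      have n3 := norm_two (fun x => C.a x l) s (fun y => C.b y l) (fun y => C.hb y l)
      have n3' : ∑ z : (A × T × R) × ((A → Bool) × T), mu0 z * (ind (C.a z.1 l ≠ 0) *
          ind (C.b z.2 l ≠ 0) * (ind ((supp (fun x => C.a x l) z.1.2.1).card ≤ s) *
            (C.b z.2 l / C.bbar l))) ≤ 2 * s / K := by
        rcases (C.bbar_nonneg l).eq_or_lt with h0 | h0
        · rw [← h0]
          refine (Finset.sum_eq_zero fun z _ => ?_).le.trans (by positivity)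
          rw [div_zero]; ring
        · have e : ∑ z : (A × T × R) × ((A → Bool) × T), mu0 z * (ind (C.a z.1 l ≠ 0) *
              ind (C.b z.2 l ≠ 0) * (ind ((supp (fun x => C.a x l) z.1.2.1).card ≤ s) *
              (C.b z.2 l / C.bbar l))) =
              (∑ z : (A × T × R) × ((A → Bool) × T), mu0 z * (ind (C.a z.1 l ≠ 0) *
              ind ((supp (fun x => C.a x l) z.1.2.1).card ≤ s) * C.b z.2 l)) / C.bbar l := by
            rw [Finset.sum_div]
            refine Finset.sum_congr rfl fun z _ => ?_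
            by_cases hb : C.b z.2 l ≠ 0
            · rw [ind_pos hb]; ring
            · rw [not_not] at hb; rw [hb]; ring
          rw [e, div_le_iff₀ h0]
          exact n3
      have e : ∑ z, mu0 z * g z l = 1 / 3 * (K * ∑ z : (A × T × R) × ((A → Bool) × T),
            mu0 z * (ind (C.a z.1 l ≠ 0) * ind (C.b z.2 l ≠ 0) * 1) +
          K / ρ * ∑ z : (A × T × R) × ((A → Bool) × T),
            mu0 z * (ind (C.a z.1 l ≠ 0) * ind (C.b z.2 l ≠ 0) *
              ind (s < (supp (fun x => C.a x l) z.1.2.1).card)) +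
          K / (2 * s) * ∑ z : (A × T × R) × ((A → Bool) × T), mu0 z * (ind (C.a z.1 l ≠ 0) *
            ind (C.b z.2 l ≠ 0) * (ind ((supp (fun x => C.a x l) z.1.2.1).card ≤ s) *
            (C.b z.2 l / C.bbar l)))) := by
        rw [Finset.mul_sum, Finset.mul_sum, Finset.mul_sum, ← Finset.sum_add_distrib,
          ← Finset.sum_add_distrib, Finset.mul_sum]
        refine Finset.sum_congr rfl fun z _ => ?_
        show mu0 z * (1 / 3 * (ind (C.a z.1 l ≠ 0) * ind (C.b z.2 l ≠ 0)) *
          (K + K / ρ * ind (s < (supp (fun x => C.a x l) z.1.2.1).card) +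
            K / (2 * s) * (ind ((supp (fun x => C.a x l) z.1.2.1).card ≤ s) *
              (C.b z.2 l / C.bbar l)))) = _
        ring
      rw [e]
      have m1 : K * ∑ z : (A × T × R) × ((A → Bool) × T),
            mu0 z * (ind (C.a z.1 l ≠ 0) * ind (C.b z.2 l ≠ 0) * 1) ≤ 1 := by
        calc _ ≤ K * (2 * (1 / 2) / K) := mul_le_mul_of_nonneg_left n1 h1.le
          _ = 1 := by field_simp
      have m2 : K / ρ * ∑ z : (A × T × R) × ((A → Bool) × T),
            mu0 z * (ind (C.a z.1 l ≠ 0) * ind (C.b z.2 l ≠ 0) *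
              ind (s < (supp (fun x => C.a x l) z.1.2.1).card)) ≤ 1 := by
        calc _ ≤ K / ρ * (2 * ((s + 1) / 2 ^ (s + 1)) / K) :=
              mul_le_mul_of_nonneg_left n2 (by positivity)
          _ = 1 := by
              rw [hρ, pow_succ]
              field_simp
      have m3 : K / (2 * s) * ∑ z : (A × T × R) × ((A → Bool) × T), mu0 z * (ind (C.a z.1 l ≠ 0) *
            ind (C.b z.2 l ≠ 0) * (ind ((supp (fun x => C.a x l) z.1.2.1).card ≤ s) *
            (C.b z.2 l / C.bbar l))) ≤ 1 := by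
        calc _ ≤ K / (2 * s) * (2 * s / K) :=
              mul_le_mul_of_nonneg_left n3' (by positivity)
          _ = 1 := by field_simp
      linarith
  have key := C.gibbs μ hμ hμ1 mu0 mu0_nonneg sum_mu0 g hg0 hgp hg1
  refine le_trans ?_ key
  have e : log K - log 3 + E * ∑ z, ∑ l, mu0 z * (C.a z.1 l * C.b z.2 l) *
      ind (C.bad s (2 * s * exp E) z l) =
      ∑ z, ∑ l, mu0 z * (C.a z.1 l * C.b z.2 l) *
        (log K - log 3 + E * ind (C.bad s (2 * s * exp E) z l)) := by
    have e1 : ∑ z, ∑ l, mu0 z * (C.a z.1 l * C.b z.2 l) = 1 := by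
      simp only [← Finset.mul_sum, C.hs, mul_one, sum_mu0]
    calc _ = (log K - log 3) * 1 + E * ∑ z, ∑ l, mu0 z * (C.a z.1 l * C.b z.2 l) *
          ind (C.bad s (2 * s * exp E) z l) := by rw [mul_one]
      _ = _ := by
        rw [← e1]
        simp only [Finset.mul_sum, ← Finset.sum_add_distrib]
        exact Finset.sum_congr rfl fun z _ => Finset.sum_congr rfl fun l _ => by ring
  rw [e]
  refine Finset.sum_le_sum fun z _ => Finset.sum_le_sum fun l _ => ?_
  by_cases h : 0 < C.a z.1 l * C.b z.2 l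
  · refine mul_le_mul_of_nonneg_left ?_ (mul_nonneg (mu0_nonneg z) h.le)
    have h' := h
    rw [C.mul_pos_iff] at h'
    have hgz : g z l = 1 / 3 *
      (K + K / ρ * ind (s < (supp (fun x => C.a x l) z.1.2.1).card) +
        K / (2 * s) * (ind ((supp (fun x => C.a x l) z.1.2.1).card ≤ s) *
          (C.b z.2 l / C.bbar l))) := by
      show 1 / 3 * (ind (C.a z.1 l ≠ 0) * ind (C.b z.2 l ≠ 0)) * _ = _
      rw [ind_pos h'.1, ind_pos h'.2]; ring
    by_cases hb : C.bad s (2 * s * exp E) z l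
    · rw [ind_pos hb, mul_one]
      have h5 : K / 3 * exp E ≤ g z l := by
        rw [hgz]
        by_cases hc : s < (supp (fun x => C.a x l) z.1.2.1).card
        · have h6 : exp E ≤ 1 / ρ := by rw [le_div_iff₀ hρ0]; exact hs
          rw [ind_pos hc]
          have h7 := (hbr z l).2
          have h8 : K * exp E ≤ K / ρ := by
            calc K * exp E ≤ K * (1 / ρ) := mul_le_mul_of_nonneg_left h6 h1.le
              _ = K / ρ := by ring
          nlinarith
        · have h6 : 2 * s * exp E * C.bbar l < C.b z.2 l := by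
            rcases hb with hb | hb
            · exact absurd hb hc
            · exact hb
          have hbb : 0 < C.bbar l := by
            unfold Chan.bbar
            have h2 : (0 : ℝ) < Fintype.card T := cardA_pos
            refine div_pos (Finset.sum_pos' (fun y _ => C.hb y l) ⟨z.2, Finset.mem_univ _, ?_⟩)
              (by positivity)
            exact lt_of_le_of_ne (C.hb _ l) h'.2.symm
          have h7 : 2 * s * exp E ≤ C.b z.2 l / C.bbar l := by
            rw [le_div_iff₀ hbb]; exact h6.le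
          rw [ind_pos (not_lt.1 hc), one_mul]
          have h8 := (hbr z l).1
          have h9 : K * exp E ≤ K / (2 * s) * (C.b z.2 l / C.bbar l) := by
            calc K * exp E = K / (2 * s) * (2 * s * exp E) := by field_simp
              _ ≤ _ := mul_le_mul_of_nonneg_left h7 (by positivity)
          nlinarith
      have h6 : log (K / 3 * exp E) = log K - log 3 + E := by
        rw [log_mul (by positivity) (exp_pos _).ne', log_div h1.ne' (by norm_num), log_exp]
      rw [← h6]
      exact log_le_log (by positivity) h5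
    · rw [ind_neg hb, mul_zero, add_zero, ← log_div h1.ne' (by norm_num)]
      refine log_le_log (by positivity) ?_
      rw [hgz]
      linarith [(hbr z l).1, (hbr z l).2]
  · have h0 : C.a z.1 l * C.b z.2 l = 0 :=
      le_antisymm (not_lt.1 h) (mul_nonneg (C.ha _ l) (C.hb _ l))
    rw [h0]; simp

end

end Pool.Agent.TH702.EI.Low
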