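import Pool.Agent.TH702.EI.Upper
import Pool.Agent.TH702.EI.Dich

/-!
# The mixed distribution
-/

namespace Pool.Agent.TH702.EI

open Low

set_option linter.unusedSectionVars false

variable {A T R : Type} [Fintype A] [Fintype T] [Fintype R] [DecidableEq A]
  [Nonempty A] [Nonempty T] [Nonempty R]

/-- The mixture of the structured and of the uniform distribution. -/
noncomputable def mix (ε : ℝ) (z : (A × T × R) × ((A → Bool) × T)) : ℝ :=
  (1 - ε) * mu0 z + ε * mu1 z

theorem mu1_pos (z : (A × T × R) × ((A → Bool) × T)) : 0 < mu1 z := by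
  unfold mu1
  have h1 : (0 : ℝ) < Fintype.card A := cardA_pos
  have h2 : (0 : ℝ) < Fintype.card T := cardA_pos
  have h3 : (0 : ℝ) < Fintype.card R := cardA_pos
  positivity

theorem mix_pos {ε : ℝ} (h0 : 0 < ε) (h1 : ε ≤ 1) (z : (A × T × R) × ((A → Bool) × T)) :
    0 < mix ε z :=
  add_pos_of_nonneg_of_pos (mul_nonneg (by linarith) (mu0_nonneg z)) (mul_pos h0 (mu1_pos z))

theorem sum_mix (ε : ℝ) : ∑ z : (A × T × R) × ((A → Bool) × T), mix ε z = 1 := by
  unfold mix
  rw [Finset.sum_add_distrib, ← Finset.mul_sum, ← Finset.mul_sum, sum_mu0, sum_mu1]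
  ring

theorem om_eq {X Y : Type} (key : X → T) (lck : Y → T) (s : X × Y) :
    om key lck s = 1 - ind (key s.1 = lck s.2) := by
  unfold om
  by_cases h : key s.1 = lck s.2
  · rw [ind_pos h, if_pos h]; ring
  · rw [ind_neg h, if_neg h]; ring

theorem mu0_om (z : (A × T × R) × ((A → Bool) × T)) :
    mu0 z * om (fun x : A × T × R => x.2.1) (fun y : (A → Bool) × T => y.2) z = 0 := by
  by_cases h : Hit z.1 z.2
  · have : z.1.2.1 = z.2.2 := h.1
    rw [om_eq, ind_pos this]; ring
  · unfold mu0; rw [ind_neg h]; ring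

theorem mu0_vv (z : (A × T × R) × ((A → Bool) × T)) :
    mu0 z * vv (fun x : A × T × R => x.1) (fun y : (A → Bool) × T => y.1) z = 0 := by
  by_cases h : Hit z.1 z.2
  · have : z.2.1 z.1.1 = true := h.2
    unfold vv; rw [if_pos this]; ring
  · unfold mu0; rw [ind_neg h]; ring

theorem sum_mu1_ind : ∑ z : (A × T × R) × ((A → Bool) × T), mu1 z * ind (z.1.2.1 = z.2.2) =
    1 / Fintype.card T := by
  have h1 : (0 : ℝ) < Fintype.card A := cardA_pos
  have h2 : (0 : ℝ) < Fintype.card T := cardA_pos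
  have h3 : (0 : ℝ) < Fintype.card R := cardA_pos
  rw [Fintype.sum_prod_type]
  have e : ∀ x : A × T × R, ∑ y : (A → Bool) × T, mu1 (x, y) * ind (x.2.1 = y.2) =
      1 / ((Fintype.card A * Fintype.card T * Fintype.card R) *
        (2 ^ Fintype.card A * Fintype.card T)) * 2 ^ Fintype.card A := by
    intro x
    unfold mu1
    rw [← Finset.mul_sum]
    congr 1
    have := sum_pair_ind (A := A) (fun _ => (1 : ℝ)) x.2.1
    simp only [one_mul] at this
    rw [this]
    simp
  simp only [e]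
  rw [Finset.sum_const, Finset.card_univ, nsmul_eq_mul, cardX]
  field_simp

theorem q_le {ε : ℝ} (h0 : 0 ≤ ε) : ∑ z, mix ε z *
    om (fun x : A × T × R => x.2.1) (fun y : (A → Bool) × T => y.2) z ≤ ε := by
  calc _ = ∑ z : (A × T × R) × ((A → Bool) × T), ε * (mu1 z *
        om (fun x : A × T × R => x.2.1) (fun y : (A → Bool) × T => y.2) z) := by
        refine Finset.sum_congr rfl fun z _ => ?_
        have := mu0_om z
        unfold mix
        linear_combination (1 - ε) * this
    _ ≤ ∑ z : (A × T × R) × ((A → Bool) × T), ε * mu1 z := by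
        refine Finset.sum_le_sum fun z _ => mul_le_mul_of_nonneg_left ?_ h0
        refine mul_le_of_le_one_right (mu1_nonneg z) ?_
        rw [om_eq]
        linarith [ind_nonneg (z.1.2.1 = z.2.2)]
    _ = ε := by rw [← Finset.mul_sum, sum_mu1, mul_one]

theorem q_eq (ε : ℝ) : ∑ z, mix ε z *
    om (fun x : A × T × R => x.2.1) (fun y : (A → Bool) × T => y.2) z =
      ε * (1 - 1 / Fintype.card T) := by
  calc _ = ∑ z : (A × T × R) × ((A → Bool) × T), ε * (mu1 z - mu1 z * ind (z.1.2.1 = z.2.2)) := by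
        refine Finset.sum_congr rfl fun z _ => ?_
        have h1 := mu0_om z
        have h2 : om (fun x : A × T × R => x.2.1) (fun y : (A → Bool) × T => y.2) z =
          1 - ind (z.1.2.1 = z.2.2) := om_eq _ _ z
        unfold mix
        linear_combination (1 - ε) * h1 + ε * mu1 z * h2
    _ = _ := by rw [← Finset.mul_sum, Finset.sum_sub_distrib, sum_mu1, sum_mu1_ind]

theorem v_le {ε : ℝ} (h0 : 0 ≤ ε) : ∑ z, mix ε z *
    vv (fun x : A × T × R => x.1) (fun y : (A → Bool) × T => y.1) z ≤ ε := by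
  calc _ = ∑ z : (A × T × R) × ((A → Bool) × T), ε * (mu1 z *
        vv (fun x : A × T × R => x.1) (fun y : (A → Bool) × T => y.1) z) := by
        refine Finset.sum_congr rfl fun z _ => ?_
        have := mu0_vv z
        unfold mix
        linear_combination (1 - ε) * this
    _ ≤ ∑ z : (A × T × R) × ((A → Bool) × T), ε * mu1 z := by
        refine Finset.sum_le_sum fun z _ => mul_le_mul_of_nonneg_left ?_ h0
        refine mul_le_of_le_one_right (mu1_nonneg z) ?_
        unfold vv
        split_ifs <;> norm_num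
    _ = ε := by rw [← Finset.mul_sum, sum_mu1, mul_one]

variable {X Y : Type} [Fintype X] [Fintype Y]

/-- The function, transported. -/
def tF [DecidableEq T] (eX : X ≃ A × T × R) (eY : Y ≃ (A → Bool) × T) : X → Y → Bool :=
  Fun (fun x => (eX x).1) (fun x => (eX x).2.1) (fun y => (eY y).1) (fun y => (eY y).2)

/-- The distribution, transported. -/
noncomputable def tmu (eX : X ≃ A × T × R) (eY : Y ≃ (A → Bool) × T) (ε : ℝ) (z : X × Y) : ℝ :=
  mix ε (eX z.1, eY z.2)

theorem sum_tmu (eX : X ≃ A × T × R) (eY : Y ≃ (A → Bool) × T) (ε : ℝ)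
    (G : (A × T × R) × ((A → Bool) × T) → ℝ) :
    ∑ z : X × Y, tmu eX eY ε z * G (eX z.1, eY z.2) = ∑ z, mix ε z * G z := by
  rw [← Equiv.sum_comp (eX.prodCongr eY) (fun z => mix ε z * G z)]
  rfl

theorem sum_tmu_one (eX : X ≃ A × T × R) (eY : Y ≃ (A → Bool) × T) (ε : ℝ) :
    ∑ z : X × Y, tmu eX eY ε z = 1 := by
  have := sum_tmu eX eY ε (fun _ => 1)
  simpa [sum_mix] using this

/-- The amortized upper bound. -/
theorem upper [DecidableEq T] [AddCommGroup T] (eX : X ≃ A × T × R) (eY : Y ≃ (A → Bool) × T)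
    {ε : ℝ} (h0 : 0 < ε) (h1 : ε ≤ 1) (k m g : ℕ) (hg : 1 ≤ g) (hA : Fintype.card A ≤ 2 ^ k)
    (hT : Fintype.card T ≤ 2 ^ m) :
    avgCC (powF (tF eX eY) g) (powMu (tmu eX eY ε) g) ≤
      (m + 2) + k * (g - g * (ε * (1 - 1 / Fintype.card T))) + k * (g * (g - 1) * ε ^ 2) +
        2 * ε * g * (g * (m + 2)) := by
  have hb := block_avg (fun x => (eX x).1) (fun x => (eX x).2.1) (fun y => (eY y).1)
    (fun y => (eY y).2) k m g hA hT (μ := tmu eX eY ε) (fun z => (mix_pos h0 h1 _).le)
    (sum_tmu_one eX eY ε)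
  have e1 : ∑ s, tmu eX eY ε s * om (fun x => (eX x).2.1) (fun y => (eY y).2) s =
      ∑ z, mix ε z * om (fun x : A × T × R => x.2.1) (fun y : (A → Bool) × T => y.2) z :=
    sum_tmu eX eY ε (om (fun x : A × T × R => x.2.1) (fun y : (A → Bool) × T => y.2))
  have e2 : ∑ s, tmu eX eY ε s * vv (fun x => (eX x).1) (fun y => (eY y).1) s =
      ∑ z, mix ε z * vv (fun x : A × T × R => x.1) (fun y : (A → Bool) × T => y.1) z :=
    sum_tmu eX eY ε (vv (fun x : A × T × R => x.1) (fun y : (A → Bool) × T => y.1))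
  rw [e1, e2] at hb
  refine hb.trans ?_
  have q1 := q_le (A := A) (T := T) (R := R) h0.le
  have q2 := q_eq (A := A) (T := T) (R := R) ε
  have v1 := v_le (A := A) (T := T) (R := R) h0.le
  have q0 : 0 ≤ ∑ z, mix ε z *
      om (fun x : A × T × R => x.2.1) (fun y : (A → Bool) × T => y.2) z := by
    refine Finset.sum_nonneg fun z _ => mul_nonneg (mix_pos h0 h1 z).le ?_
    unfold om; split_ifs <;> norm_num
  rw [← q2]
  set q : ℝ := ∑ z, mix ε z * om (fun x : A × T × R => x.2.1) (fun y : (A → Bool) × T => y.2) z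
  set v : ℝ := ∑ z, mix ε z * vv (fun x : A × T × R => x.1) (fun y : (A → Bool) × T => y.1) z
  have hg' : (1 : ℝ) ≤ g := by exact_mod_cast hg
  have hk : (0 : ℝ) ≤ k := Nat.cast_nonneg k
  have hm : (0 : ℝ) ≤ m := Nat.cast_nonneg m
  have t1 : (k : ℝ) * (g * (g - 1) * q ^ 2) ≤ k * (g * (g - 1) * ε ^ 2) := by
    refine mul_le_mul_of_nonneg_left ?_ hk
    refine mul_le_mul_of_nonneg_left ?_ (mul_nonneg (by linarith) (by linarith))
    exact pow_le_pow_left₀ q0 q1 2
  have t2 : ((g : ℝ) * q + g * v) * (g * (m + 2)) ≤ 2 * ε * g * (g * (m + 2)) := by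
    refine mul_le_mul_of_nonneg_right ?_ (by positivity)
    nlinarith
  linarith

open Prot in
/-- The channel of a zero-error protocol. -/
noncomputable def toChan [DecidableEq T] (eX : X ≃ A × T × R) (eY : Y ≃ (A → Bool) × T)
    (π : Prot X Y Bool) (h : π.ZeroError (tF eX eY)) : Chan A T R π.Leaf where
  a x l := prA π (eX.symm x) l
  b y l := prB π (eY.symm y) l
  out := π.out
  ha x l := prA_nonneg π _ l
  hb y l := prB_nonneg π _ l
  hs x y := by
    rw [← sum_pr π (eX.symm x) (eY.symm y)]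
    exact Finset.sum_congr rfl fun l _ => (pr_eq π _ _ l).symm
  hz x y l hl := by
    rw [← pr_eq] at hl
    rw [h _ _ l hl]
    unfold tF Fun
    simp

open Prot in
theorem extInfo_eq [DecidableEq T] (eX : X ≃ A × T × R) (eY : Y ≃ (A → Bool) × T)
    (π : Prot X Y Bool) (h : π.ZeroError (tF eX eY)) (ε : ℝ) :
    π.extInfo (tmu eX eY ε) * Real.log 2 =
      (1 - ε) * (toChan eX eY π h).info (mix ε) mu0 +
        ε * (toChan eX eY π h).info (mix ε) mu1 := by
  have hlog : Real.log 2 ≠ 0 := (Real.log_pos (by norm_num)).ne'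
  have e0 : ∀ l, ∑ w : X × Y, tmu eX eY ε w * π.pr w.1 w.2 l =
      ∑ w, mix ε w * ((toChan eX eY π h).a w.1 l * (toChan eX eY π h).b w.2 l) := by
    intro l
    rw [← sum_tmu eX eY ε
      (fun w => (toChan eX eY π h).a w.1 l * (toChan eX eY π h).b w.2 l)]
    refine Finset.sum_congr rfl fun w _ => ?_
    rw [pr_eq]
    simp [toChan]
  have e1 : π.extInfo (tmu eX eY ε) * Real.log 2 =
      ∑ z, mix ε z * ∑ l, ((toChan eX eY π h).a z.1 l * (toChan eX eY π h).b z.2 l) *
        Real.log ((toChan eX eY π h).a z.1 l * (toChan eX eY π h).b z.2 l /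
          ∑ w, mix ε w * ((toChan eX eY π h).a w.1 l * (toChan eX eY π h).b w.2 l)) := by
    rw [← sum_tmu eX eY ε]
    unfold extInfo
    rw [Finset.sum_mul]
    refine Finset.sum_congr rfl fun z _ => ?_
    rw [Finset.sum_mul, Finset.mul_sum]
    refine Finset.sum_congr rfl fun l _ => ?_
    rw [← e0 l, pr_eq]
    have : (toChan eX eY π h).a (eX z.1, eY z.2).1 l * (toChan eX eY π h).b (eX z.1, eY z.2).2 l =
        prA π z.1 l * prB π z.2 l := by simp [toChan]
    rw [this]
    unfold Real.logb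
    field_simp
  rw [e1]
  unfold Chan.info mix
  rw [Finset.mul_sum, Finset.mul_sum, ← Finset.sum_add_distrib]
  refine Finset.sum_congr rfl fun z _ => ?_
  rw [Finset.mul_sum, Finset.mul_sum, Finset.mul_sum, ← Finset.sum_add_distrib]
  refine Finset.sum_congr rfl fun l _ => ?_
  ring

end Pool.Agent.TH702.EI
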