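import Pool.Agent.TH702.EI.Comb

/-!
# Amortized average communication: the limit exists and is bounded by any single block
-/

namespace Pool.Agent.TH702.EI

open Prot

variable {X Y O : Type}

theorem exists_zeroError [Fintype X] [Fintype Y] [Nonempty O] (F : X → Y → O) :
    ∃ π : Prot X Y O, π.ZeroError F := by
  classical
  by_cases hX : Nonempty X
  · by_cases hY : Nonempty Y
    · have h : Solves (fun _ _ => True) F
          (fun _ _ => ((Fintype.card X : ℕ) : ℝ) + (((Fintype.card Y : ℕ) : ℝ) + 0)) := by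
        refine (Solves.alice (M := X) (Fintype.card X) (Nat.lt_two_pow_self).le id
          (F := fun x _ => x) (fun _ _ _ => rfl)).bind fun x0 => ?_
        refine (Solves.bob (M := Y) (Fintype.card Y) (Nat.lt_two_pow_self).le id
          (F := fun _ y => y) (fun _ _ _ => rfl)).bind fun y0 => ?_
        refine Solves.const (F x0 y0) fun x y h => ⟨?_, le_rfl⟩
        rw [h.1.2, h.2]
      obtain ⟨π, hπ⟩ := h
      exact ⟨π, fun x y l hl => (hπ x y trivial).1 l hl⟩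
    · exact ⟨Prot.leaf (Classical.arbitrary O), fun _ y => absurd ⟨y⟩ hY⟩
  · exact ⟨Prot.leaf (Classical.arbitrary O), fun x _ => absurd ⟨x⟩ hX⟩

theorem sum_pow_add [Fintype X] [Fintype Y] (a b : ℕ)
    (G : (Fin (a + b) → X) × (Fin (a + b) → Y) → ℝ) :
    ∑ z, G z = ∑ z₁ : (Fin a → X) × (Fin a → Y), ∑ z₂ : (Fin b → X) × (Fin b → Y),
      G (Fin.append z₁.1 z₂.1, Fin.append z₁.2 z₂.2) := by
  classical
  let e : ((Fin a → X) × (Fin a → Y)) × ((Fin b → X) × (Fin b → Y)) ≃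
      (Fin (a + b) → X) × (Fin (a + b) → Y) :=
    (Equiv.prodProdProdComm _ _ _ _).trans
      (Equiv.prodCongr (Fin.appendEquiv a b) (Fin.appendEquiv a b))
  rw [← Equiv.sum_comp e, Fintype.sum_prod_type]
  rfl

theorem powMu_append (μ : X × Y → ℝ) (a b : ℕ) (z₁ : (Fin a → X) × (Fin a → Y))
    (z₂ : (Fin b → X) × (Fin b → Y)) :
    powMu μ (a + b) (Fin.append z₁.1 z₂.1, Fin.append z₁.2 z₂.2) = powMu μ a z₁ * powMu μ b z₂ := by
  unfold powMu
  rw [Fin.prod_univ_add]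
  simp only [Fin.append_left, Fin.append_right]

theorem powMu_nonneg {μ : X × Y → ℝ} (hμ : ∀ z, 0 ≤ μ z) (n : ℕ)
    (z : (Fin n → X) × (Fin n → Y)) : 0 ≤ powMu μ n z :=
  Finset.prod_nonneg fun _ _ => hμ _

/-- Sums of products over `n` coordinates. -/
theorem sum_prod_pow [Fintype X] [Fintype Y] (n : ℕ) (h : Fin n → X × Y → ℝ) :
    ∑ z : (Fin n → X) × (Fin n → Y), ∏ c, h c (z.1 c, z.2 c) = ∏ c, ∑ s, h c s := by
  classical
  rw [← Equiv.sum_comp (Equiv.arrowProdEquivProdArrow (Fin n) (fun _ => X) (fun _ => Y))]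
  rw [Finset.prod_univ_sum, Fintype.piFinset_univ]
  rfl

theorem sum_powMu [Fintype X] [Fintype Y] {μ : X × Y → ℝ} (hμ1 : ∑ z, μ z = 1) (n : ℕ) :
    ∑ z, powMu μ n z = 1 := by
  unfold powMu
  rw [sum_prod_pow n (fun _ => μ)]
  simp [hμ1]

theorem avgCC_nonneg [Fintype X] [Fintype Y] (F : X → Y → O) {μ : X × Y → ℝ}
    (hμ : ∀ z, 0 ≤ μ z) : 0 ≤ avgCC F μ := by
  apply Real.sInf_nonneg
  rintro r ⟨π', -, rfl⟩
  exact expBits_nonneg hμ π'

theorem avgCC_subadd [Fintype X] [Fintype Y] [Nonempty O] (F : X → Y → O) {μ : X × Y → ℝ}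
    (hμ : ∀ z, 0 ≤ μ z) (hμ1 : ∑ z, μ z = 1) (a b : ℕ) :
    avgCC (powF F (a + b)) (powMu μ (a + b)) ≤
      avgCC (powF F a) (powMu μ a) + avgCC (powF F b) (powMu μ b) := by
  classical
  -- the two protocols one after the other
  have key : ∀ (π₁ : Prot (Fin a → X) (Fin a → Y) (Fin a → O))
      (π₂ : Prot (Fin b → X) (Fin b → Y) (Fin b → O)), π₁.ZeroError (powF F a) →
      π₂.ZeroError (powF F b) →
      avgCC (powF F (a + b)) (powMu μ (a + b)) ≤
        π₁.expBits (powMu μ a) + π₂.expBits (powMu μ b) := by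
    intro π₁ π₂ h₁ h₂
    have hs : Solves (fun _ _ => True) (powF F (a + b)) (fun x y =>
        eb π₁ (fun i => x (Fin.castAdd b i)) (fun i => y (Fin.castAdd b i)) +
        (eb π₂ (fun i => x (Fin.natAdd a i)) (fun i => y (Fin.natAdd a i)) + 0)) := by
      have hs1 : Solves (fun _ _ => True)
          (fun (x : Fin (a + b) → X) (y : Fin (a + b) → Y) =>
            powF F a (fun i => x (Fin.castAdd b i)) (fun i => y (Fin.castAdd b i)))
          (fun x y => eb π₁ (fun i => x (Fin.castAdd b i)) (fun i => y (Fin.castAdd b i))) :=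
        ⟨comap (fun x i => x (Fin.castAdd b i)) (fun y i => y (Fin.castAdd b i)) π₁,
          fun x y _ => ⟨sure_comap _ _ _ _ _ _ (fun l hl => h₁ _ _ l hl),
            (eb_comap _ _ _ _ _).le⟩⟩
      have hs2 : Solves (fun _ _ => True)
          (fun (x : Fin (a + b) → X) (y : Fin (a + b) → Y) =>
            powF F b (fun i => x (Fin.natAdd a i)) (fun i => y (Fin.natAdd a i)))
          (fun x y => eb π₂ (fun i => x (Fin.natAdd a i)) (fun i => y (Fin.natAdd a i))) :=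
        ⟨comap (fun x i => x (Fin.natAdd a i)) (fun y i => y (Fin.natAdd a i)) π₂,
          fun x y _ => ⟨sure_comap _ _ _ _ _ _ (fun l hl => h₂ _ _ l hl),
            (eb_comap _ _ _ _ _).le⟩⟩
      refine hs1.bind fun o₁ => ?_
      refine (hs2.mono fun x y _ => ⟨trivial, le_rfl⟩).bind fun o₂ => ?_
      refine Solves.const (Fin.append o₁ o₂) fun x y h => ⟨?_, le_rfl⟩
      rw [← h.1.2, ← h.2]
      funext c
      refine Fin.addCases (fun i => ?_) (fun i => ?_) c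
      · rw [Fin.append_left]; rfl
      · rw [Fin.append_right]; rfl
    refine (hs.avgCC_le (powMu_nonneg hμ _)).trans ?_
    rw [sum_pow_add, expBits_eq, expBits_eq]
    simp only [powMu_append, Fin.append_left, Fin.append_right, add_zero]
    have e : ∀ z₁ : (Fin a → X) × (Fin a → Y), ∑ z₂ : (Fin b → X) × (Fin b → Y),
        powMu μ a z₁ * powMu μ b z₂ * (eb π₁ z₁.1 z₁.2 + eb π₂ z₂.1 z₂.2)
        = powMu μ a z₁ * eb π₁ z₁.1 z₁.2 +
          powMu μ a z₁ * ∑ z₂, powMu μ b z₂ * eb π₂ z₂.1 z₂.2 := by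
      intro z₁
      have : ∀ z₂ : (Fin b → X) × (Fin b → Y),
          powMu μ a z₁ * powMu μ b z₂ * (eb π₁ z₁.1 z₁.2 + eb π₂ z₂.1 z₂.2)
          = (powMu μ a z₁ * eb π₁ z₁.1 z₁.2) * powMu μ b z₂ +
            powMu μ a z₁ * (powMu μ b z₂ * eb π₂ z₂.1 z₂.2) := fun z₂ => by ring
      simp only [this]
      rw [Finset.sum_add_distrib, ← Finset.mul_sum, ← Finset.mul_sum, sum_powMu hμ1, mul_one]
    simp only [e]
    rw [Finset.sum_add_distrib, ← Finset.sum_mul, sum_powMu hμ1, one_mul]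
  obtain ⟨π₁, h₁⟩ := exists_zeroError (powF F a)
  obtain ⟨π₂, h₂⟩ := exists_zeroError (powF F b)
  have s1 : ∀ π₂' : Prot (Fin b → X) (Fin b → Y) (Fin b → O), π₂'.ZeroError (powF F b) →
      avgCC (powF F (a + b)) (powMu μ (a + b)) - π₂'.expBits (powMu μ b) ≤
      avgCC (powF F a) (powMu μ a) := by
    intro π₂' h₂'
    refine le_csInf ⟨_, π₁, h₁, rfl⟩ ?_
    rintro r ⟨π₁', h₁', rfl⟩
    linarith [key π₁' π₂' h₁' h₂']
  have s2 : avgCC (powF F (a + b)) (powMu μ (a + b)) - avgCC (powF F a) (powMu μ a) ≤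
      avgCC (powF F b) (powMu μ b) := by
    refine le_csInf ⟨_, π₂, h₂, rfl⟩ ?_
    rintro r ⟨π₂', h₂', rfl⟩
    linarith [s1 π₂' h₂']
  linarith

/-- The limit of `avgCC (F^n) / n` exists and is at most `avgCC (F^g) / g` for every `g ≥ 1`. -/
theorem exists_lim [Fintype X] [Fintype Y] [Nonempty O] (F : X → Y → O) {μ : X × Y → ℝ}
    (hμ : ∀ z, 0 ≤ μ z) (hμ1 : ∑ z, μ z = 1) :
    ∃ L : ℝ, Filter.Tendsto (fun n : ℕ => avgCC (powF F n) (powMu μ n) / n) Filter.atTop (nhds L) ∧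
      ∀ g : ℕ, g ≠ 0 → L ≤ avgCC (powF F g) (powMu μ g) / g := by
  have hsub : Subadditive (fun n : ℕ => avgCC (powF F n) (powMu μ n)) :=
    fun a b => avgCC_subadd F hμ hμ1 a b
  have hb : BddBelow (Set.range fun n : ℕ => avgCC (powF F n) (powMu μ n) / n) := by
    refine ⟨0, ?_⟩
    rintro r ⟨n, rfl⟩
    exact div_nonneg (avgCC_nonneg _ (powMu_nonneg hμ n)) (Nat.cast_nonneg n)
  exact ⟨hsub.lim, hsub.tendsto_lim hb, fun g hg => hsub.lim_le_div hb hg⟩

end Pool.Agent.TH702.EI
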