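import Pool.Agent.TH702.EI.Block

/-!
# The amortized upper bound
-/

namespace Pool.Agent.TH702.EI

variable {X Y A T : Type} (idx : X → A) (key : X → T) (tab : Y → A → Bool) (lck : Y → T)

theorem block_avg [Fintype X] [Fintype Y] [Fintype A] [Nonempty A] [Fintype T] [DecidableEq T]
    [AddCommGroup T] (k m g : ℕ) (hA : Fintype.card A ≤ 2 ^ k) (hT : Fintype.card T ≤ 2 ^ m)
    {μ : X × Y → ℝ} (hμ : ∀ z, 0 ≤ μ z) (hμ1 : ∑ z, μ z = 1) :
    avgCC (powF (Fun idx key tab lck) g) (powMu μ g) ≤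
      (m + 2) + k * (g - g * ∑ s, μ s * om key lck s) +
        k * (g * (g - 1) * (∑ s, μ s * om key lck s) ^ 2) +
        (g * (∑ s, μ s * om key lck s) + g * ∑ s, μ s * vv idx tab s) * (g * (m + 2)) := by
  refine ((block idx key tab lck k m g hA hT).avgCC_le (powMu_nonneg hμ g)).trans (le_of_eq ?_)
  have h0 := sum_powMu hμ1 g
  have h1 := moment_one hμ1 g (om key lck)
  have h2 := moment_two hμ1 g (om key lck) (om_idem key lck)
  have h3 := moment_one hμ1 g (vv idx tab)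
  rw [← h1, ← h2, ← h3]
  have e : ∀ z : (Fin g → X) × (Fin g → Y), powMu μ g z *
      ((m : ℝ) + 2 + k * (g - ∑ c, om key lck (z.1 c, z.2 c)) +
        k * ((∑ c, om key lck (z.1 c, z.2 c)) * ((∑ c, om key lck (z.1 c, z.2 c)) - 1)) +
        ((∑ c, om key lck (z.1 c, z.2 c)) + ∑ c, vv idx tab (z.1 c, z.2 c)) * (g * (m + 2))) =
      ((m : ℝ) + 2 + k * g) * powMu μ g z -
        k * (powMu μ g z * ∑ c, om key lck (z.1 c, z.2 c)) +
        k * (powMu μ g z * ((∑ c, om key lck (z.1 c, z.2 c)) *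
          ((∑ c, om key lck (z.1 c, z.2 c)) - 1))) +
        (g * (m + 2)) * (powMu μ g z * ∑ c, om key lck (z.1 c, z.2 c)) +
        (g * (m + 2)) * (powMu μ g z * ∑ c, vv idx tab (z.1 c, z.2 c)) := fun z => by ring
  simp only [e]
  rw [Finset.sum_add_distrib, Finset.sum_add_distrib, Finset.sum_add_distrib,
    Finset.sum_sub_distrib]
  simp only [← Finset.mul_sum]
  rw [h0]
  ring

end Pool.Agent.TH702.EI
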